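import Pool.Agent.Helper38.LC3.Inter

/-!
# Project LC3: classes without outer edges (`L1`, `L2`), final form
-/

namespace Pool.Agent.Helper38.LC3

open Finset Real Pool.Agent.Helper98.LC
open Pool.Agent.Helper38.LC2 (ct FaceFacts2 be c1 eps A0_pos be_pos be_A0 be_sq fix_mult fix_V be_num A0_num perim
  edge_half face_two nonneg_in face_refl int_base int_large int_num int_fix in_three mix edge_quart
  arctan_three arctan_four interior_face int_six)

variable {E : Type} [DecidableEq E] {F : Finset E} {a : ℝ} {l ch y : E → ℝ}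

theorem int0_two (h : FaceFacts2 F a l ch y) (ha : 0 < a) (hF : F.card = 2)
    (hin : ∀ e ∈ F, l e ≤ 3 * min 1 a) :
    6 * min 1 a + 0.58 ≤ ∑ e ∈ F, l e + be * (A0 * ∑ e ∈ F, y e) := by
  obtain ⟨s, hs0, hs1, hm, hL, hs⟩ := int_base h ha hin
  have h1 := face_two h hF.le
  have h2 : be * (A0 * ∑ e ∈ F, y e) = 3 * ∑ e ∈ F, y e := by rw [← mul_assoc, be_A0]
  have h3 : min 1 a ≤ a := min_le_right _ _
  rw [h2]
  rw [hF] at hs
  push_cast at hs
  rw [hm] at h3 ⊢
  nlinarith

theorem int0_three (h : FaceFacts2 F a l ch y) (ha : 0 < a) (hF : F.card = 3)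
    (hin : ∀ e ∈ F, l e ≤ 3 * min 1 a) :
    6 * min 1 a + 0.4276 ≤ ∑ e ∈ F, l e + be * (A0 * ∑ e ∈ F, y e) := by
  obtain ⟨s, hs0, hs1, hm, hL, hs⟩ := int_base h ha hin
  rw [hF] at hs
  push_cast at hs
  rcases le_total (A0 * ∑ e ∈ F, y e) 0.62 with hX | hX
  · have h1 := int_fix h (by omega) (in_three hin) (t := 5.1) (V := 3 * s ^ 2 + 0.2138)
      (m := s ^ 2) (by norm_num) (by rw [hF]; exact_mod_cast arctan_three)
      (by rw [← hm]; exact min_le_right _ _)
      (int_num hX hs0 (by norm_num) (by norm_num) (by norm_num) hs1 (by norm_num)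
        (by
          have h2 : 0 ≤ (1 - s ^ 2) * (s ^ 2 - 0.4) :=
            mul_nonneg (by nlinarith) (by nlinarith)
          nlinarith [h2]))
    rw [hm]
    linarith
  · rw [hm]
    exact int_large (d := 0.4276) hX hs0 hs1 hL (by norm_num) (by norm_num)

theorem int0_four (h : FaceFacts2 F a l ch y) (ha : 0 < a) (hF : F.card = 4)
    (hin : ∀ e ∈ F, l e ≤ 3 * min 1 a) :
    6 * min 1 a + 0.28508 ≤ ∑ e ∈ F, l e + be * (A0 * ∑ e ∈ F, y e) := by
  obtain ⟨s, hs0, hs1, hm, hL, hs⟩ := int_base h ha hin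
  rw [hF] at hs
  push_cast at hs
  rcases le_total (A0 * ∑ e ∈ F, y e) 0.495 with hX | hX
  · have h1 := int_fix h (by omega) (in_three hin) (t := 3.99) (V := 3 * s ^ 2 + 0.14254)
      (m := s ^ 2) (by norm_num) (by rw [hF]; exact_mod_cast arctan_four)
      (by rw [← hm]; exact min_le_right _ _)
      (int_num hX hs0 (by norm_num) (by norm_num) (by norm_num) hs1 (by norm_num)
        (by
          have h2 : 0 ≤ (1 - s ^ 2) * (s ^ 2 - 0.2267) :=
            mul_nonneg (by nlinarith) (by nlinarith)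
          nlinarith [h2]))
    rw [hm]
    linarith
  · rw [hm]
    exact int_large (d := 0.28508) hX hs0 hs1 hL (by norm_num) (by norm_num)

theorem int0_five (h : FaceFacts2 F a l ch y) (ha : 0 < a) (hF : F.card = 5)
    (hin : ∀ e ∈ F, l e ≤ 3 * min 1 a) :
    6 * min 1 a + 0.14258 ≤ ∑ e ∈ F, l e + be * (A0 * ∑ e ∈ F, y e) := by
  have hma : min 1 a ≤ a := min_le_right _ _
  have hin3 := in_three hin
  obtain ⟨s, hs0, hs1, hm, hL, hs⟩ := int_base h ha hin
  rw [hF] at hs
  push_cast at hs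
  rw [hm] at hma
  rcases le_total (A0 * ∑ e ∈ F, y e) 0.05 with hX | hX
  · have h1 := int_fix h (by omega) hin3 (t := 3.6327) (V := 3 * s ^ 2 + 0.07129)
      (m := s ^ 2) (by norm_num) (by rw [hF]; exact_mod_cast arctan_five') hma
      (int_num hX hs0 (by norm_num) (by norm_num) (by norm_num) hs1 (by norm_num)
        (by
          have h2 : 0 ≤ (1 - s ^ 2) * (s ^ 2 - 0.1451) :=
            mul_nonneg (by nlinarith) (by nlinarith)
          nlinarith [h2]))
    rw [hm]
    linarith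
  rcases le_total 0.3713 (A0 * ∑ e ∈ F, y e) with hX1 | hX1
  · rw [hm]
    exact int_large (d := 0.14258) hX1 hs0 hs1 hL (by norm_num) (by norm_num)
  · by_cases hl : ∀ e ∈ F, l e ≤ 2
    · have h1 := mink3 h hl
      have h2 := poly5 h hF hma
      have hL0 : 0 ≤ ∑ e ∈ F, l e := Finset.sum_nonneg fun e he =>
        (h.ch_nonneg e he).trans (h.ch_le e he)
      have hb := be_num
      have hA := A0_num
      have hbs := be_sq
      obtain ⟨X, hXd⟩ : ∃ X, X = A0 * ∑ e ∈ F, y e := ⟨_, rfl⟩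
      rw [← hXd] at hX hX1 h1 h2 ⊢
      rw [hm]
      generalize ∑ e ∈ F, ch e = S at *
      generalize ∑ e ∈ F, l e = L at *
      -- `(6 m + .14258 - be X)² ≤ L²`
      have hm0 : 0.1451 ≤ s ^ 2 := by nlinarith
      have hm1 : s ^ 2 ≤ 1 := by nlinarith
      generalize s ^ 2 = m at *
      have h3 : 4 * 3.6327 * (A0 * m - X) + 3 * X ^ 2 ≤ L ^ 2 := by linarith
      have hAm : 2.598076 * m ≤ A0 * m := mul_le_mul_of_nonneg_right hA.1 (by linarith)
      have h4 : (6 * m + 0.14258 - be * X) ^ 2 ≤ L ^ 2 := by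
        have h5 : (6 * m + 0.14258 - be * X) ^ 2 =
            (6 * m + 0.14258) ^ 2 - 2 * (be * X) * (6 * m + 0.14258) + be ^ 2 * X ^ 2 := by ring
        rw [h5, hbs]
        have h6 : 1.1547004 * X ≤ be * X := mul_le_mul_of_nonneg_right hb.1 (by linarith)
        have h7 : 1.1547004 * X * (6 * m + 0.14258) ≤ be * X * (6 * m + 0.14258) :=
          mul_le_mul_of_nonneg_right h6 (by linarith)
        have h8 : 0 ≤ (1 - m) * (m - 0.1451) := mul_nonneg (by linarith) (by linarith)
        have h9 : 0 ≤ (1 - m) * (0.3713 - X) := mul_nonneg (by linarith) (by linarith)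
        have h10 : 0 ≤ (X - 0.1036) ^ 2 := sq_nonneg _
        nlinarith
      have h5 : 6 * m + 0.14258 - be * X ≤ L := by
        refine le_trans (le_abs_self _) ?_
        exact abs_le_of_sq_le_sq h4 hL0
      linarith
    · push Not at hl
      obtain ⟨f, hf, hf2⟩ := hl
      have h1 := long5 h hF hf hma (by nlinarith) hf2.le (hin3 f hf) hX hX1
      rw [hm]
      linarith

/-- (L1) The inequality for a class without outer edges, `F.card ≠ 6`. -/
theorem interior0 (h : FaceFacts2 F a l ch y) (ha : 0 < a) (h2 : 2 ≤ F.card) (h6 : F.card ≠ 6)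
    (hin : ∀ e ∈ F, l e ≤ 3 * min 1 a) {e : ℝ} (he1 : 283 / 2000 ≤ e) (he2 : e ≤ 285 / 2000) :
    6 * min 1 a + e * (6 - (F.card : ℝ)) + 1 / 100000 * ((F.card : ℝ) + √a) ≤
      ∑ e ∈ F, l e + 3 * ∑ e ∈ F, y e := by
  have hX : be * (A0 * ∑ e ∈ F, y e) = 3 * ∑ e ∈ F, y e := by
    rw [← mul_assoc, be_A0]
  have hm1 : min 1 a ≤ 1 := min_le_left _ _
  have hn : (2 : ℝ) ≤ (F.card : ℝ) := by exact_mod_cast h2
  rcases le_or_gt 8 a with h8 | h8
  · have h1 := int_big h h8 (in_three hin)
    have h3 : e * (6 - (F.card : ℝ)) = 4 * e - e * ((F.card : ℝ) - 2) := by ring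
    have h4 : 283 / 2000 * ((F.card : ℝ) - 2) ≤ e * ((F.card : ℝ) - 2) :=
      mul_le_mul_of_nonneg_right he1 (by linarith)
    linarith
  have hs : √a ≤ 2.83 := by
    rw [Real.sqrt_le_iff]
    norm_num
    linarith
  rcases Nat.lt_or_ge F.card 6 with h7 | h7
  · have hc : F.card = 2 ∨ F.card = 3 ∨ F.card = 4 ∨ F.card = 5 := by omega
    rcases hc with hc | hc | hc | hc
    · have h1 := int0_two h ha hc hin
      rw [hc]
      push_cast
      linarith
    · have h1 := int0_three h ha hc hin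
      rw [hc]
      push_cast
      linarith
    · have h1 := int0_four h ha hc hin
      rw [hc]
      push_cast
      linarith
    · have h1 := int0_five h ha hc hin
      rw [hc]
      push_cast
      linarith
  · have h9 : 7 ≤ F.card := by omega
    have h9' : (7 : ℝ) ≤ (F.card : ℝ) := by exact_mod_cast h9
    have h1 := interior_face h ha h2 hin
    have h3 : 283 / 2000 * ((F.card : ℝ) - 6) ≤ e * ((F.card : ℝ) - 6) :=
      mul_le_mul_of_nonneg_right he1 (by linarith)
    unfold eps at h1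
    linarith

/-- (L2) The inequality for a class without outer edges, `F.card = 6`. -/
theorem interior6 (h : FaceFacts2 F a l ch y) (ha : 0 < a) (h6 : F.card = 6)
    (hin : ∀ e ∈ F, l e ≤ 3 * min 1 a) :
    6 * min 1 a + (if 8 ≤ a then 1 / 100000 * √a else 0) ≤
      ∑ e ∈ F, l e + 3 * ∑ e ∈ F, y e := by
  have hX : be * (A0 * ∑ e ∈ F, y e) = 3 * ∑ e ∈ F, y e := by
    rw [← mul_assoc, be_A0]
  have hm1 : min 1 a ≤ 1 := min_le_left _ _
  rw [← hX]
  split_ifs with h8
  · have h1 := int_big h h8 (in_three hin)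
    linarith
  · have h1 := int_six h ha h6 hin
    linarith

end Pool.Agent.Helper38.LC3
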