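import Pool.Agent.Helper38.LC3.Strip
import Pool.Agent.Helper38.LC3.Inter0

/-!
# Project LC3: classes with two inner and two outer edges pay a constant

In a minimal labelling the total length of the two outer edges is at most `3 min 1 a + a/20 ≤ 3.1` (the tight strip cell
has outer edges of total length `2π/√3 = 3.6276`), so there is a slack.  `c0 = π/6`, `c = 0.4893`, `c0/c ≤ 1.0701`:
`∑ l - c0 ∑ ch ≥ 1.0701 Y - 0.0701 ∑ l`, `Y = ∑ (l - c ch)`.
-/

namespace Pool.Agent.Helper38.LC3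

open Finset Real Pool.Agent.Helper98.LC
open Pool.Agent.Helper38.LC2 (ct FaceFacts2 be c1 A0_pos be_pos be_A0 be_sq fix_mult fix_V be_num A0_num perim
  edge_half face_two nonneg_in face_refl)

/-- the upper bound for `W = α Y + E` -/
noncomputable def FstA (c : ℝ) (k B : ℕ) (α E u p q T t w : ℝ) : ℝ :=
  B * (p - q / DU c u) + 1.1547006 * (w - 2 * E + E ^ 2 / w) / (4 * α ^ 2 * DU c u) +
    k * (T - t / (1 + t ^ 2)) + 1.1547006 * (3 - w) / (1 + t ^ 2)

private theorem s2_conv {E w0 w1 W : ℝ} (h0 : 0 < w0) (hw0 : w0 ≤ W)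
    (hw1 : W ≤ w1) :
    (w1 - w0) * (E ^ 2 / W) ≤ (w1 - W) * (E ^ 2 / w0) + (W - w0) * (E ^ 2 / w1) := by
  have hW : 0 < W := by linarith
  have hw : 0 < w1 := by linarith
  have e : (w1 - W) * (E ^ 2 / w0) + (W - w0) * (E ^ 2 / w1) - (w1 - w0) * (E ^ 2 / W) =
      E ^ 2 * ((w1 - w0) * (W - w0) * (w1 - W)) / (W * w0 * w1) := by
    field_simp
    ring
  have h2 : 0 ≤ E ^ 2 * ((w1 - w0) * (W - w0) * (w1 - W)) / (W * w0 * w1) := by
    apply div_nonneg
    · exact mul_nonneg (sq_nonneg _) (mul_nonneg (mul_nonneg (by linarith) (by linarith))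
        (by linarith))
    · positivity
  linarith

variable {c : ℝ} [h0c : Fact (0 < c)] [h1c : Fact (c < 11 / 20)]

private theorem s2_max {k B : ℕ} {α E u t p q T w0 w1 W : ℝ} (hα : 0 < α) (hd : 0 < DU c u)
    (h0 : 0 < w0) (hw0 : w0 ≤ W) (hw1 : W ≤ w1)
    (hF0 : FstA c k B α E u p q T t w0 < 3.141592)
    (hF1 : FstA c k B α E u p q T t w1 < 3.141592) : FstA c k B α E u p q T t W < 3.141592 := by
  have hf : ∀ w, FstA c k B α E u p q T t w =
      (B * (p - q / DU c u) + k * (T - t / (1 + t ^ 2))) +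
      1.1547006 / (4 * α ^ 2 * DU c u) * (w - 2 * E + E ^ 2 / w) +
      1.1547006 / (1 + t ^ 2) * (3 - w) := by
    intro w
    unfold FstA
    ring
  have hA : 0 ≤ 1.1547006 / (4 * α ^ 2 * DU c u) := by positivity
  have hc := mul_le_mul_of_nonneg_left (s2_conv (E := E) h0 hw0 hw1) hA
  rw [hf] at hF0 hF1 ⊢
  set A := 1.1547006 / (4 * α ^ 2 * DU c u) with hAdef
  set C := 1.1547006 / (1 + t ^ 2) with hCdef
  set D := (B * (p - q / DU c u) + k * (T - t / (1 + t ^ 2)) : ℝ) with hDdef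
  rcases eq_or_lt_of_le (hw0.trans hw1) with h | h
  · have h1 : W = w0 := by linarith
    rw [h1]
    exact hF0
  · have e : (w1 - W) * (D + A * (w0 - 2 * E + E ^ 2 / w0) + C * (3 - w0)) +
        (W - w0) * (D + A * (w1 - 2 * E + E ^ 2 / w1) + C * (3 - w1)) -
        (w1 - w0) * (D + A * (W - 2 * E + E ^ 2 / W) + C * (3 - W)) =
        A * ((w1 - W) * (E ^ 2 / w0) + (W - w0) * (E ^ 2 / w1)) -
          A * ((w1 - w0) * (E ^ 2 / W)) := by
      ring
    have h2 : 0 < w1 - w0 := by linarith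
    have h3 : (w1 - w0) * (D + A * (W - 2 * E + E ^ 2 / W) + C * (3 - W)) <
        (w1 - w0) * 3.141592 := by
      have h4 : (w1 - W) * (D + A * (w0 - 2 * E + E ^ 2 / w0) + C * (3 - w0)) ≤
          (w1 - W) * 3.141592 := mul_le_mul_of_nonneg_left hF0.le (by linarith)
      have h5 : (W - w0) * (D + A * (w1 - 2 * E + E ^ 2 / w1) + C * (3 - w1)) ≤
          (W - w0) * 3.141592 := mul_le_mul_of_nonneg_left hF1.le (by linarith)
      rcases eq_or_lt_of_le hw0 with h6 | h6
      · have h7 : (w1 - W) * (D + A * (w0 - 2 * E + E ^ 2 / w0) + C * (3 - w0)) <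
            (w1 - W) * 3.141592 := by
          rw [← h6] at hw1 ⊢
          exact mul_lt_mul_of_pos_left hF0 h2
        nlinarith
      · have h7 : (W - w0) * (D + A * (w1 - 2 * E + E ^ 2 / w1) + C * (3 - w1)) <
            (W - w0) * 3.141592 := mul_lt_mul_of_pos_left hF1 (by linarith)
        nlinarith
    exact lt_of_mul_lt_mul_left h3 h2.le

theorem star_pieceA {k B : ℕ} (hk : 1 ≤ k) {α E u t p q T w0 w1 Y W : ℝ} (hα : 0 < α)
    (hu : 0 < u) (hu1 : u < 1) (ht : 0 ≤ t) (hp : psi c (2 * arctan u) ≤ p)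
    (hq : q ≤ gg c (2 * arctan u)) (hT : arctan t ≤ T)
    (h0 : 0 < w0) (hw0 : w0 ≤ W) (hw1 : W ≤ w1) (h3 : w1 ≤ 3)
    (hY : W = α * Y + E) (hF0 : FstA c k B α E u p q T t w0 < 3.141592)
    (hF1 : FstA c k B α E u p q T t w1 < 3.141592) : StarP c k B Y W := by
  have hd : 0 < DU c u := by
    rw [← DD_two hu hu1]
    exact (DD_pos _).2
  have hbe : be ≤ 1.1547006 := be_num.2
  have hbe0 := be_pos
  have hW0 : 0 < W := by linarith
  have hkpos : (0 : ℝ) < k := by exact_mod_cast hk
  have hau : 0 < arctan u := by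
    rw [← Real.arctan_zero]
    exact Real.arctan_strictMono hu
  have haπ := Real.arctan_lt_pi_div_two u
  refine ⟨2 * arctan u, by linarith, by linarith, ?_⟩
  rw [DD_two hu hu1]
  have s1 : (B : ℝ) * (psi c (2 * arctan u) - gg c (2 * arctan u) / DU c u) ≤
      B * (p - q / DU c u) := by
    apply mul_le_mul_of_nonneg_left _ (Nat.cast_nonneg B)
    have := div_le_div_of_nonneg_right hq hd.le
    linarith
  have s2 : be * Y ^ 2 / (4 * W) / DU c u ≤
      1.1547006 * (W - 2 * E + E ^ 2 / W) / (4 * α ^ 2 * DU c u) := by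
    have hYE : Y = (W - E) / α := by
      rw [eq_div_iff hα.ne']
      linarith
    have e1 : be * Y ^ 2 / (4 * W) / DU c u =
        be * (((W - E) ^ 2 / W) / (4 * α ^ 2 * DU c u)) := by
      rw [hYE]
      field_simp
    have e2 : W - 2 * E + E ^ 2 / W = (W - E) ^ 2 / W := by
      field_simp
      ring
    rw [e1, e2, mul_div_assoc]
    apply mul_le_mul_of_nonneg_right hbe
    positivity
  have s3 : (k : ℝ) * arctan (be * (3 - W) / k) ≤
      k * (T - t / (1 + t ^ 2)) + 1.1547006 * (3 - W) / (1 + t ^ 2) := by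
    have h3W : 0 ≤ 3 - W := by linarith
    have hx : 0 ≤ be * (3 - W) / k := by positivity
    have a1 := arctan_tangent hx ht
    have ht2 : (0 : ℝ) < 1 + t ^ 2 := by positivity
    calc (k : ℝ) * arctan (be * (3 - W) / k) ≤
          k * (arctan t + (be * (3 - W) / k - t) / (1 + t ^ 2)) :=
          mul_le_mul_of_nonneg_left a1 hkpos.le
      _ = k * (arctan t - t / (1 + t ^ 2)) + be * ((3 - W) / (1 + t ^ 2)) := by
          field_simp
          ring
      _ ≤ k * (T - t / (1 + t ^ 2)) + 1.1547006 * ((3 - W) / (1 + t ^ 2)) := by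
          apply add_le_add
          · apply mul_le_mul_of_nonneg_left _ hkpos.le
            linarith
          · apply mul_le_mul_of_nonneg_right hbe
            positivity
      _ = _ := by rw [mul_div_assoc]
  have s4 := s2_max (k := k) (B := B) hα hd h0 hw0 hw1 hF0 hF1
  have s5 := Real.pi_gt_d6
  unfold FstA at s4
  linarith

/-- the constant `c` -/
noncomputable def cS : ℝ := 4893 / 10000

instance : Fact (0 < cS) := ⟨by unfold cS; norm_num⟩

instance : Fact (cS < 11 / 20) := ⟨by unfold cS; norm_num⟩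

theorem starA {Y W : ℝ} (hY : W = 1.0701 * Y + (-0.23331)) (h0 : 1.46 ≤ W) (h3 : W ≤ 3) :
    StarP cS 2 2 Y W := by
  exact star_pieceA (c := cS) (k := 2) (B := 2) (by norm_num) (α := 1.0701) (E := -0.23331)
    (u := 0.2463) (t := 0.8537) (p := 0.86439) (q := 0.25574) (T := 0.70665) (w0 := 1.46) (w1 := 3)
    (by norm_num) (by norm_num) (by norm_num) (by norm_num)
    (psi_a (x := 0.85333) (by norm_num) (by norm_num) (by norm_num) (by norm_num)
      (by norm_num [cS]) (by norm_num))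
    (gg_num (by norm_num) (by norm_num) (by norm_num [cS]))
    (arc_a (by norm_num) (by norm_num) (by norm_num)) (by norm_num) h0 h3 (by norm_num)
    hY (by norm_num [FstA, DU, cS]) (by norm_num [FstA, DU, cS])

theorem starB {Y W : ℝ} (hY : W = 0.93283 * Y + (-0.016)) (h0 : 0.03 ≤ W) (h3 : W ≤ 1.47) :
    StarP cS 2 2 Y W := by
  exact star_pieceA (c := cS) (k := 2) (B := 2) (by norm_num) (α := 0.93283) (E := -0.016)
    (u := 0.2401) (t := 0.8833) (p := 0.84651) (q := 0.24912) (T := 0.72353) (w0 := 0.03) (w1 := 1.47)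
    (by norm_num) (by norm_num) (by norm_num) (by norm_num)
    (psi_a (x := 0.88472) (by norm_num) (by norm_num) (by norm_num) (by norm_num)
      (by norm_num [cS]) (by norm_num))
    (gg_num (by norm_num) (by norm_num) (by norm_num [cS]))
    (arc_a (by norm_num) (by norm_num) (by norm_num)) (by norm_num) h0 h3 (by norm_num)
    hY (by norm_num [FstA, DU, cS]) (by norm_num [FstA, DU, cS])


omit h0c h1c in
/-- The inequality for two inner and two outer edges, with slack. -/
theorem bdry22p {E : Type} [DecidableEq E] {F : Finset E} {a : ℝ} {l ch y : E → ℝ}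
    (h : FaceFacts2 F a l ch y) (ha : 0 < a) (ha2 : a < 2) (O : Finset E) (hO : O ⊆ F)
    (hO1 : O.card = 2) (hF : F.card = 4) (hin : ∀ e ∈ F \ O, l e ≤ 3 * min 1 a)
    (hout : ∑ e ∈ O, l e ≤ 3 * min 1 a + a / 20) :
    6 * min 1 a + π / 3 * ∑ e ∈ O, ch e + 0.032 ≤
      ∑ e ∈ F, l e + ∑ e ∈ O, l e + 3 * ∑ e ∈ F \ O, y e := by
  have hpi1 := Real.pi_gt_d6
  have hpi2 := Real.pi_lt_d6
  have hX : be * (A0 * ∑ e ∈ F \ O, y e) = 3 * ∑ e ∈ F \ O, y e := by
    rw [← mul_assoc, be_A0]
  have hm0 : 0 < min 1 a := lt_min one_pos ha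
  have hm1 : min 1 a ≤ 1 := min_le_left _ _
  have hma : min 1 a ≤ a := min_le_right _ _
  have hin3 : ∀ e ∈ F \ O, l e ≤ 3 := fun e he => (hin e he).trans (by linarith)
  have hcard : (F \ O).card = 2 := by
    rw [Finset.card_sdiff_of_subset hO]
    omega
  have hch0 : 0 ≤ ∑ e ∈ O, ch e := Finset.sum_nonneg fun e he => h.ch_nonneg e (hO he)
  have hchl : ∑ e ∈ O, ch e ≤ ∑ e ∈ O, l e := Finset.sum_le_sum fun e he => h.ch_le e (hO he)
  have hYs : ∑ e ∈ O, (l e - cS * ch e) = ∑ e ∈ O, l e - cS * ∑ e ∈ O, ch e := by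
    rw [Finset.sum_sub_distrib, Finset.mul_sum]
  have hL31 : ∑ e ∈ O, l e ≤ 3.1 := by linarith
  have hsd := Finset.sum_sdiff hO (f := l)
  have hc : cS = 0.4893 := by unfold cS; norm_num
  -- the key: a lower bound of `V` for a suitable `W`
  have key : ∀ W : ℝ, 0 < W → W ≤ 3 → be * (∑ e ∈ O, (l e - cS * ch e)) ^ 2 / (4 * W) ≤ 1 →
      StarP cS 2 2 (∑ e ∈ O, (l e - cS * ch e)) W →
      3 * min 1 a - W ≤ (∑ e ∈ F \ O, l e + be * (A0 * ∑ e ∈ F \ O, y e)) / 2 := by
    intro W hW hW3 hH hst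
    rcases le_or_gt (3 * min 1 a - W) 0 with hV | hV
    · exact hV.trans (nonneg_in h (F \ O) Finset.sdiff_subset hin3).2
    refine core (c := cS) h O hO (by omega) hin3 hm1 hma hV hW.le (fun h1 => absurd h1 hW.ne')
      hH ?_
    rw [hcard, hO1]
    exact hst
  rw [← hX, ← hsd]
  obtain ⟨Y, hYd⟩ : ∃ Y, Y = ∑ e ∈ O, (l e - cS * ch e) := ⟨_, rfl⟩
  rw [← hYd] at key hYs
  obtain ⟨L, hLd⟩ : ∃ L, L = ∑ e ∈ O, l e := ⟨_, rfl⟩
  obtain ⟨D, hDd⟩ : ∃ D, D = ∑ e ∈ O, ch e := ⟨_, rfl⟩
  rw [← hLd] at hout hchl hL31 hYs hsd ⊢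
  rw [← hDd] at hch0 hchl hYs ⊢
  rw [hc] at hYs
  have hD1 : π / 6 * D ≤ 1.0701 * (L - Y) := by
    have e1 : L - Y = 0.4893 * D := by linarith
    rw [e1]
    have : π / 6 ≤ 1.0701 * 0.4893 := by linarith
    nlinarith
  have hLY : 0.5107 * L ≤ Y := by nlinarith
  have hY0 : 0 ≤ Y := by nlinarith
  have hYL : Y ≤ L := by nlinarith
  rcases le_or_gt 1.5825 Y with hYA | hYA
  · -- regime A
    rcases le_or_gt (1.0701 * Y + (-0.23331)) 3 with hW | hW
    · have h1 := key (1.0701 * Y + (-0.23331)) (by linarith) hW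
        (by
          rw [div_le_one (by linarith)]
          have hsq : 0 ≤ (Y - 1.5825) * (3.0216 - Y) := mul_nonneg (by linarith) (by linarith)
          have h2 : be * Y ^ 2 ≤ 1.1547006 * Y ^ 2 :=
            mul_le_mul_of_nonneg_right be_num.2 (sq_nonneg _)
          have h3 : Y ^ 2 ≤ 4.6041 * Y - 4.7816 := by linarith
          linarith)
        (starA rfl (by linarith) hW)
      linarith
    · have h1 := (nonneg_in h (F \ O) Finset.sdiff_subset hin3).2
      linarith
  rcases le_or_gt 0.0495 Y with hYB | hYB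
  · -- regime B
    have h1 := key (0.93283 * Y + (-0.016)) (by linarith) (by linarith)
        (by
          rw [div_le_one (by linarith)]
          have hsq : 0 ≤ (Y - 0.0495) * (1.5825 - Y) := mul_nonneg (by linarith) (by linarith)
          have h2 : be * Y ^ 2 ≤ 1.1547006 * Y ^ 2 :=
            mul_le_mul_of_nonneg_right be_num.2 (sq_nonneg _)
          have h3 : Y ^ 2 ≤ 1.632 * Y - 0.078 := by linarith
          linarith)
        (starB rfl (by linarith) (by linarith))
    linarith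
  · -- tiny outer edges
    have hL1 : L ≤ 0.097 := by linarith
    have hcardF : ∑ e ∈ F \ O, l e ≤ 6 * min 1 a := by
      have h2 := Finset.sum_le_card_nsmul _ _ _ hin
      rw [hcard, nsmul_eq_mul] at h2
      push_cast at h2
      linarith
    have hper := perim h ha.le
    have hm4 : 0.1 ≤ min 1 a := by
      rcases le_total 1 a with h1a | h1a
      · rw [min_eq_left h1a]; norm_num
      · rw [min_eq_right h1a] at hcardF hout ⊢
        by_contra hlt
        push Not at hlt
        have hs0 : 0 < √a := Real.sqrt_pos.2 ha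
        have hsq : √a ^ 2 = a := Real.sq_sqrt ha.le
        have h2 : 5.71387 * √a ≤ 9.05 * √a ^ 2 := by
          rw [hsq]
          linarith
        have h3 : 5.71387 ≤ 9.05 * √a := by
          nlinarith
        nlinarith
    have hlO : ∀ e ∈ O, l e ≤ L := fun e he => by
      rw [hLd]
      exact Finset.single_le_sum (f := l)
        (fun x hx => (h.ch_nonneg x (hO hx)).trans (h.ch_le x (hO hx))) he
    have hall : ∀ e ∈ F, l e ≤ 3 * min 1 a := by
      intro e he
      by_cases heO : e ∈ O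
      · have := hlO e heO
        linarith
      · exact hin e (Finset.mem_sdiff.2 ⟨he, heO⟩)
    have h4 := int0_four h ha hF hall
    rw [← Finset.sum_sdiff hO, ← Finset.sum_sdiff hO (f := y), ← hLd] at h4
    have h5 : 3 * ∑ e ∈ O, y e ≤ 0.6 * L := by
      rw [hLd, Finset.mul_sum, Finset.mul_sum]
      refine Finset.sum_le_sum fun e he => ?_
      have h6 := Pool.Agent.Helper38.LC2.edge_lin h (hO he) (by have := hlO e he; linarith)
      have h7 := A0_num.1
      have h8 : y e ≤ |y e| := le_abs_self _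
      have h9 := abs_nonneg (y e)
      have h10 : 5.4 * |y e| ≤ 2 * π / 3 * (A0 * |y e|) := by
        have : 5.4 ≤ 2 * π / 3 * A0 := by nlinarith
        nlinarith
      linarith
    have h11 : be * (A0 * (∑ e ∈ F \ O, y e + ∑ e ∈ O, y e)) =
        be * (A0 * ∑ e ∈ F \ O, y e) + 3 * ∑ e ∈ O, y e := by
      have := be_A0
      linear_combination (∑ e ∈ O, y e) * this
    rw [h11] at h4
    have h12 : π / 3 * D ≤ 1.05 * L := by nlinarith
    linarith

end Pool.Agent.Helper38.LC3
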