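import Pool.Agent.Helper38.LC3.Defs

/-!
# Project LC3: large classes at the boundary (adapted from `LC2.Big`)
-/

namespace Pool.Agent.Helper38.LC3

open Finset Real Pool.Agent.Helper98.LC
open Pool.Agent.Helper38.LC2 (ct FaceFacts2 be c1 A0_pos be_pos be_A0 be_sq fix_mult fix_V be_num A0_num perim
  edge_half face_two nonneg_in face_refl)

variable {E : Type} [DecidableEq E] {F : Finset E} {a : ℝ} {l ch y : E → ℝ}

theorem big0 (h : FaceFacts2 F a l ch y) (O : Finset E) (hO : O ⊆ F)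
    (ha : 2 ≤ a) (hin : ∀ e ∈ F \ O, l e ≤ 3) :
    6.4416 + 1 / 100000 * √a ≤
      ∑ e ∈ F \ O, l e + be * (A0 * ∑ e ∈ F \ O, y e) + 2 * (1 - c1) * (1 - cN) * ∑ e ∈ O, l e := by
  have hsub : F \ O ⊆ F := Finset.sdiff_subset
  have hl0 : ∀ e ∈ F, 0 ≤ l e := fun e he => (h.ch_nonneg e he).trans (h.ch_le e he)
  have hLin : 0 ≤ ∑ e ∈ F \ O, l e := Finset.sum_nonneg fun e he => hl0 e (hsub he)
  have hLout : 0 ≤ ∑ e ∈ O, l e := Finset.sum_nonneg fun e he => hl0 e (hO he)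
  have hsum : ∑ e ∈ F, l e = ∑ e ∈ F \ O, l e + ∑ e ∈ O, l e := (Finset.sum_sdiff hO).symm
  have hnn := (nonneg_in h (F \ O) hsub hin).1
  have hrefl := face_refl h (F \ O) hsub
  have hper := perim h (by linarith : (0 : ℝ) ≤ a)
  rw [hsum] at hrefl hper
  have hK : (0.95277 : ℝ) ≤ 2 * (1 - c1) * (1 - cN) := by
    unfold c1 cN
    norm_num
  have hK' := mul_le_mul_of_nonneg_right hK hLout
  have hA := A0_num
  have hbe := be_num
  have hpi := Real.pi_gt_d6
  have hsa : 1 / 100000 * √a ≤ 1 / 500000 * (∑ e ∈ F \ O, l e + ∑ e ∈ O, l e) := by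
    linarith
  set Lin := ∑ e ∈ F \ O, l e with hLindef
  set Lout := ∑ e ∈ O, l e with hLoutdef
  set Y := ∑ e ∈ F \ O, y e with hY
  set X := A0 * Y with hX
  rcases le_or_gt 0 X with hX0 | hX0
  · have h2 : (1.41421 : ℝ) ≤ √a := by
      apply Real.le_sqrt_of_sq_le
      norm_num
      linarith
    have h4 : 0 ≤ be * X := mul_nonneg be_pos.le hX0
    linarith
  · have hrefl' : 4 * π * (A0 * a - 2 * X) ≤ (Lin + Lout) ^ 2 := by
      have e : A0 * (a - 2 * Y) = A0 * a - 2 * X := by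
        rw [hX]
        ring
      rw [← e]
      exact hrefl
    rw [abs_of_neg hX0] at hnn
    obtain ⟨u, hu⟩ : ∃ u : ℝ, u = -X := ⟨_, rfl⟩
    have hXu : X = -u := by rw [hu, neg_neg]
    rw [hXu] at hrefl' hnn hX0 ⊢
    rw [neg_neg] at hnn
    have hu0 : 0 < u := by linarith
    have hbu : be * -u = -(be * u) := by ring
    rw [hbu]
    have hbu' : be * u ≤ 1.1547006 * u := mul_le_mul_of_nonneg_right hbe.2 hu0.le
    rcases le_or_gt u 7 with hu7 | hu7
    · have hA0a : (5.196152 : ℝ) ≤ A0 * a := by nlinarith [hA.1, A0_pos]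
      have h5 : (12.56636 : ℝ) * (5.196152 + 2 * u) ≤ (Lin + Lout) ^ 2 := by
        refine le_trans ?_ hrefl'
        have h6 : (5.196152 : ℝ) + 2 * u ≤ A0 * a - 2 * -u := by linarith
        have h7 : (12.56636 : ℝ) ≤ 4 * π := by linarith
        exact mul_le_mul h7 h6 (by linarith) (by positivity)
      have h8 : (6.4416 + 1.1547006 * u) ^ 2 ≤ (95276 / 100000 * (Lin + Lout)) ^ 2 := by
        rw [mul_pow]
        have h9 : (95276 / 100000 : ℝ) ^ 2 * (12.56636 * (5.196152 + 2 * u)) ≤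
            (95276 / 100000 : ℝ) ^ 2 * (Lin + Lout) ^ 2 :=
          mul_le_mul_of_nonneg_left h5 (by positivity)
        refine le_trans ?_ h9
        have h10 : 0 ≤ u * (7 - u) := mul_nonneg hu0.le (by linarith)
        norm_num
        nlinarith
      have h11 : 6.4416 + 1.1547006 * u ≤ 95276 / 100000 * (Lin + Lout) :=
        le_of_sq_le_sq h8 (by positivity)
      linarith
    · have h12 : 2 * π / 3 * u ≤ Lin := hnn
      have h13 : (2.0943 : ℝ) * u ≤ 2 * π / 3 * u :=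
        mul_le_mul_of_nonneg_right (by linarith) hu0.le
      have h14 : 0 ≤ 95276 / 100000 * Lout := by positivity
      linarith

/-- The inequality for a large class with outer edges. -/
theorem big (h : FaceFacts2 F a l ch y) (O : Finset E) (hO : O ⊆ F) (hO1 : 1 ≤ O.card)
    (h2 : 2 ≤ F.card) (h3 : O.card + 2 ≤ F.card + O.card) (ha : 2 ≤ a) (hin : ∀ e ∈ F \ O, l e ≤ 3)
    {e pay : ℝ} (he1 : 283 / 2000 ≤ e) (he2 : e ≤ 285 / 2000) (hpay : pay ≤ 14 / 1000 * O.card) :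
    6 + e * (6 - (F.card : ℝ) - O.card) + pay + 1 / 100000 * ((F.card : ℝ) + √a) ≤
      ∑ e ∈ F \ O, l e + be * (A0 * ∑ e ∈ F \ O, y e) + 2 * (1 - c1) * (1 - cN) * ∑ e ∈ O, l e := by
  have h0 := big0 h O hO ha hin
  have hn : (2 : ℝ) ≤ (F.card : ℝ) := by exact_mod_cast h2
  have hB : (1 : ℝ) ≤ (O.card : ℝ) := by exact_mod_cast hO1
  have h4 : e * (6 - (F.card : ℝ) - O.card) = 3 * e - e * ((F.card : ℝ) + O.card - 3) := by ring
  have h5 : 283 / 2000 * ((F.card : ℝ) + O.card - 3) ≤ e * ((F.card : ℝ) + O.card - 3) :=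
    mul_le_mul_of_nonneg_right he1 (by linarith)
  linarith

end Pool.Agent.Helper38.LC3
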