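import Pool.Agent.Helper38.LC3.StarBig
import Pool.Agent.Helper38.LC3.Core
import Pool.Agent.Helper38.LC3.Small
import Pool.Agent.Helper38.LC3.Big

/-!
# Project LC3: the boundary inequality with strict slack (`L3`, `L4`)

`F`: the edges of the class, `O` the outer edges, price `e ∈ [283/2000, 285/2000]`, constant `5236/10000 > π/6`.
-/

namespace Pool.Agent.Helper38.LC3

open Finset Real Pool.Agent.Helper98.LC
open Pool.Agent.Helper38.LC2 (ct FaceFacts2 be c1 A0_pos be_pos be_A0 be_sq fix_mult fix_V be_num A0_num perim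
  edge_half face_two nonneg_in face_refl)

variable {E : Type} [DecidableEq E] {F : Finset E} {a : ℝ} {l ch y : E → ℝ}

private lemma c1_pos' : (0 : ℝ) < 1 - c1 := by unfold c1; norm_num

private lemma sumY_nonneg (h : FaceFacts2 F a l ch y) (O : Finset E) (hO : O ⊆ F) :
    0 ≤ ∑ e ∈ O, (l e - cN * ch e) := by
  refine Finset.sum_nonneg fun e he => ?_
  have h1 := h.ch_nonneg e (hO he)
  have h2 := h.ch_le e (hO he)
  have h3 : cN < 1 := by unfold cN; norm_num
  nlinarith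

/-- the numbers `E` for which `StarP` holds with `W = (1 - c1) Y + E`, `W ≥ w` -/
private lemma star_use {k B : ℕ} {E w Y W E' : ℝ}
    (hs : ∀ {Y W : ℝ}, W = (1 - c1) * Y + E → w ≤ W → W ≤ 3 → StarP cN k B Y W)
    (hW : W = (1 - c1) * Y + E') (hE : E ≤ E') (hY : 0 ≤ Y) (hw : w ≤ W) (hW0 : 0 < W)
    (h3 : W ≤ 3) : StarP cN k B Y W := by
  have hc := c1_pos'
  refine starP_mono (Y' := (W - E) / (1 - c1)) hY ?_ hW0 (hs ?_ hw h3)
  · rw [le_div_iff₀ hc]
    linarith
  · field_simp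
    ring

/-- the central estimate for nonnegative price -/
private theorem key_pos (h : FaceFacts2 F a l ch y) (O : Finset E) (hO : O ⊆ F) (hO1 : 1 ≤ O.card)
    (hO2 : 2 * O.card ≤ F.card) (hin : ∀ e ∈ F \ O, l e ≤ 3)
    {m W E' : ℝ} (hm1 : m ≤ 1) (hma : m ≤ a) (hV : 0 < 3 * m - W)
    (hW : W = (1 - c1) * ∑ e ∈ O, (l e - cN * ch e) + E') (hE : 0 < E')
    (hst : ∀ {Y : ℝ}, 0 ≤ Y → W = (1 - c1) * Y + E' → 0 < W → E' ≤ W → W ≤ 3 →
      StarP cN (F \ O).card O.card Y W) :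
    3 * m - W ≤ (∑ e ∈ F \ O, l e + be * (A0 * ∑ e ∈ F \ O, y e)) / 2 := by
  have hY0 := sumY_nonneg h O hO
  have hc := mul_nonneg c1_pos'.le hY0
  have hcard : (F \ O).card = F.card - O.card := Finset.card_sdiff_of_subset hO
  have hk : 1 ≤ (F \ O).card := by omega
  have h3 : W ≤ 3 := by linarith
  have hWp : 0 < W := by linarith
  refine core (c := cN) h O hO hk hin hm1 hma hV hWp.le (fun h1 => absurd h1 hWp.ne')
    ?_ (hst hY0 hW hWp (by linarith) h3)
  have h1 : min W (1 / 10) ≤ 1 / 10 := min_le_right _ _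
  have h2 : 0 < min W (1 / 10) := lt_min hWp (by norm_num)
  refine hH_gen be_pos.le be_num.2 (w := min W (1 / 10)) (min_le_left _ _) h2 h3 hY0 le_rfl
    (by linarith) ?_ (by unfold c1; norm_num)
  unfold c1
  nlinarith

/-- the central estimate for negative price (one outer edge, at most three inner edges) -/
private theorem key_neg (h : FaceFacts2 F a l ch y) (O : Finset E) (hO : O ⊆ F) (hO1 : 1 ≤ O.card)
    (hO2 : 2 * O.card ≤ F.card) (hin : ∀ e ∈ F \ O, l e ≤ 3)
    {m W E' e w : ℝ} (hm1 : m ≤ 1) (hma : m ≤ a) (hV : 0 < 3 * m - W)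
    (hW : W = (1 - c1) * ∑ e ∈ O, (l e - cN * ch e) + E') (hE : -e ≤ E') (he : 0 ≤ e)
    (hw : 0 < w) (hwW : w ≤ W)
    (hst : ∀ {Y W : ℝ}, W = (1 - c1) * Y + (-e) → w ≤ W → W ≤ 3 →
      StarP cN (F \ O).card O.card Y W)
    (n1 : 1.1547006 * (w + e) ^ 2 ≤ 4 * (1 - c1) ^ 2 * w)
    (n2 : 1.1547006 * (3 + e) ^ 2 ≤ 12 * (1 - c1) ^ 2) :
    3 * m - W ≤ (∑ e ∈ F \ O, l e + be * (A0 * ∑ e ∈ F \ O, y e)) / 2 := by
  have hY0 := sumY_nonneg h O hO
  have hcard : (F \ O).card = F.card - O.card := Finset.card_sdiff_of_subset hO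
  have hk : 1 ≤ (F \ O).card := by omega
  have h3 : W ≤ 3 := by linarith
  have hWp : 0 < W := by linarith
  refine core (c := cN) h O hO hk hin hm1 hma hV hWp.le (fun h1 => absurd h1 hWp.ne')
    ?_ (star_use hst hW hE hY0 hwW hWp h3)
  exact hH_gen be_pos.le be_num.2 hwW hw h3 hY0 he (by linarith) n1 n2

/-- `StarP` for all classes with at least six (`F.card + O.card ≥ 6`) -/
private theorem star_all {k B : ℕ} (hB : 1 ≤ B) (hBk : B ≤ k) (h6 : 6 ≤ k + 2 * B)
    (h41 : ¬ (k = 4 ∧ B = 1)) (h22 : ¬ (k = 2 ∧ B = 2)) {Y W E' e pay s : ℝ}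
    (he1 : 283 / 2000 ≤ e) (hpay1 : pay ≤ 14 / 1000 * (B : ℝ))
    (hpay2 : k = 3 → B = 2 → pay ≤ 14 / 1000) (hs : s ≤ 1.42)
    (hE' : E' = e / 2 * ((k : ℝ) + 2 * B - 6) - pay / 2 - 1 / 200000 * ((k : ℝ) + B + s))
    (hY : W = (1 - c1) * Y + E') (h0 : 0 ≤ Y) (hW0 : 0 < W) (hEW : E' ≤ W) (h3 : W ≤ 3) :
    StarP cN k B Y W := by
  have hc : 0 ≤ (1 - c1) * Y := mul_nonneg c1_pos'.le h0
  by_cases h10 : k + 2 * B ≤ 10
  · have hB3 : B ≤ 3 := by omega
    have hk8 : k ≤ 8 := by omega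
    interval_cases B <;> interval_cases k <;> try omega
    all_goals push_cast at hE' hpay1
    · exact star_use (E := 0.06365) (w := 0.06365) star_51 hY (by linarith) h0 (by linarith) hW0 h3
    · exact star_use (E := 0.1344) (w := 0.1344) star_61 hY (by linarith) h0 (by linarith) hW0 h3
    · exact star_use (E := 0.20515) (w := 0.20515) star_71 hY (by linarith) h0 (by linarith) hW0 h3
    · exact star_use (E := 0.2759) (w := 0.2759) star_81 hY (by linarith) h0 (by linarith) hW0 h3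
    · have := hpay2 rfl rfl
      exact star_use (E := 0.06365) (w := 0.06365) star_32 hY (by linarith) h0 (by linarith) hW0 h3
    · exact star_use (E := 0.1274) (w := 0.1274) star_42 hY (by linarith) h0 (by linarith) hW0 h3
    · exact star_use (E := 0.19815) (w := 0.19815) star_52 hY (by linarith) h0 (by linarith) hW0 h3
    · exact star_use (E := 0.2689) (w := 0.2689) star_62 hY (by linarith) h0 (by linarith) hW0 h3
    · exact star_use (E := 0.19115) (w := 0.19115) star_33 hY (by linarith) h0 (by linarith) hW0 h3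
    · exact star_use (E := 0.2619) (w := 0.2619) star_43 hY (by linarith) h0 (by linarith) hW0 h3
  · refine star_big hB (by omega) (E := E') ?_ hY h0 h3
    have h11 : (11 : ℝ) ≤ (k : ℝ) + 2 * B := by
      have h1 : 11 ≤ k + 2 * B := by omega
      exact_mod_cast h1
    have h12 : (B : ℝ) ≤ k := by exact_mod_cast hBk
    have h13 : 283 / 2000 * ((k : ℝ) + 2 * B - 6) ≤ e * ((k : ℝ) + 2 * B - 6) :=
      mul_le_mul_of_nonneg_right he1 (by linarith)
    rw [hE']
    linarith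

/-- the central estimate for `a < 2` -/
private theorem bf_key (h : FaceFacts2 F a l ch y) (ha : 0 < a) (ha2 : a < 2) (O : Finset E)
    (hO : O ⊆ F) (hO1 : 1 ≤ O.card) (hO2 : 2 * O.card ≤ F.card)
    (hin : ∀ e ∈ F \ O, l e ≤ 3 * min 1 a)
    (hout : ∀ e ∈ O, l e ≤ 3 * min 1 a + a / 20)
    (h41 : ¬ (F.card = 5 ∧ O.card = 1)) (h22 : ¬ (F.card = 4 ∧ O.card = 2)) {e pay W : ℝ}
    (he1 : 283 / 2000 ≤ e) (he2 : e ≤ 285 / 2000) (hpay1 : pay ≤ 14 / 1000 * (O.card : ℝ))
    (hpay2 : F.card = 5 → O.card = 2 → pay ≤ 14 / 1000)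
    (hW : W = (1 - c1) * ∑ e ∈ O, (l e - cN * ch e) +
      (e / 2 * ((F.card : ℝ) + O.card - 6) - pay / 2 - 1 / 200000 * ((F.card : ℝ) + √a))) :
    3 * min 1 a - W ≤ (∑ e ∈ F \ O, l e + be * (A0 * ∑ e ∈ F \ O, y e)) / 2 := by
  have hm1 : min 1 a ≤ 1 := min_le_left _ _
  have hma : min 1 a ≤ a := min_le_right _ _
  have hin3 : ∀ e ∈ F \ O, l e ≤ 3 := fun e he => (hin e he).trans (by linarith)
  have hsa : √a ≤ 1.42 := by
    rw [Real.sqrt_le_iff]
    norm_num
    linarith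
  have hY0 := sumY_nonneg h O hO
  have hc := mul_nonneg c1_pos'.le hY0
  rcases le_or_gt (3 * min 1 a - W) 0 with hV | hV
  · exact hV.trans (nonneg_in h (F \ O) Finset.sdiff_subset hin3).2
  have hcard : (F \ O).card = F.card - O.card := Finset.card_sdiff_of_subset hO
  have hle : O.card ≤ F.card := Finset.card_le_card hO
  have hcr : ((F \ O).card : ℝ) = (F.card : ℝ) - O.card := by
    rw [hcard, Nat.cast_sub hle]
  rcases Nat.lt_or_ge (F.card + O.card) 6 with h6 | h6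
  swap
  · have hE0 : 0 < e / 2 * ((F.card : ℝ) + O.card - 6) - pay / 2 -
        1 / 200000 * ((F.card : ℝ) + √a) := by
      have h7 : 7 ≤ F.card + O.card := by omega
      have h7' : (7 : ℝ) ≤ (F.card : ℝ) + O.card := by exact_mod_cast h7
      have h8 : (2 : ℝ) * O.card ≤ (F.card : ℝ) := by exact_mod_cast hO2
      have h9 : 283 / 2000 * ((F.card : ℝ) + O.card - 6) ≤ e * ((F.card : ℝ) + O.card - 6) :=
        mul_le_mul_of_nonneg_right he1 (by linarith)
      linarith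
    refine key_pos h O hO hO1 hO2 hin3 hm1 hma hV hW hE0 ?_
    intro Y hY hYW hWp hEW hW3
    refine star_all (pay := pay) (s := √a) (e := e) hO1 (by omega) (by omega) (by omega)
      (by omega) he1 hpay1 (fun h1 h2 => hpay2 (by omega) h2) hsa ?_ hYW hY hWp hEW hW3
    rw [hcr]
    ring
  have hOc : O.card = 1 := by omega
  have hFc : F.card = 2 ∨ F.card = 3 ∨ F.card = 4 := by omega
  have hOr : (O.card : ℝ) = 1 := by rw [hOc]; norm_num
  rw [hOr] at hW hpay1
  rcases hFc with hF | hF | hF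
  · have hFr : (F.card : ℝ) = 2 := by rw [hF]; norm_num
    rw [hFr] at hW
    rcases le_or_gt (∑ e ∈ O, (l e - cN * ch e)) (1 / 4) with hY | hY
    · exact absurd (small11 h O hO hOc hF ha ha2 hin hout hY) (fun h => h)
    · have hk3 : (F \ O).card = 1 := by omega
      refine key_neg h O hO hO1 hO2 hin3 hm1 hma hV hW (e := 22085 / 100000) (w := 291 / 10000)
        (by linarith) (by norm_num) (by norm_num) ?_ ?_ (by unfold c1; norm_num)
        (by unfold c1; norm_num)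
      · rw [hW]
        unfold c1
        linarith
      · intro Y W h1 h2 h3
        rw [hk3, hOc]
        exact star_11 (by rw [h1]; norm_num) (by linarith) h3
  · have hFr : (F.card : ℝ) = 3 := by rw [hF]; norm_num
    rw [hFr] at hW
    rcases le_or_gt (∑ e ∈ O, (l e - cN * ch e)) (19 / 100) with hY | hY
    · exact small21 h O hO hOc hF ha ha2 hin hout hY (by rw [hW]; linarith)
    · have hk3 : (F \ O).card = 2 := by omega
      refine key_neg h O hO hO1 hO2 hin3 hm1 hma hV hW (e := 1496 / 10000) (w := 404 / 10000)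
        (by linarith) (by norm_num) (by norm_num) ?_ ?_ (by unfold c1; norm_num)
        (by unfold c1; norm_num)
      · rw [hW]
        unfold c1
        linarith
      · intro Y W h1 h2 h3
        rw [hk3, hOc]
        exact star_21 (by rw [h1]; norm_num) (by linarith) h3
  · have hFr : (F.card : ℝ) = 4 := by rw [hF]; norm_num
    rw [hFr] at hW
    rcases le_or_gt (∑ e ∈ O, (l e - cN * ch e)) (1 / 10) with hY | hY
    · exact small31 h O hO hOc hF ha ha2 hin hout hY (by rw [hW]; linarith)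
    · have hk3 : (F \ O).card = 3 := by omega
      refine key_neg h O hO hO1 hO2 hin3 hm1 hma hV hW (e := 7835 / 100000) (w := 216 / 10000)
        (by linarith) (by norm_num) (by norm_num) ?_ ?_ (by unfold c1; norm_num)
        (by unfold c1; norm_num)
      · rw [hW]
        unfold c1
        linarith
      · intro Y W h1 h2 h3
        rw [hk3, hOc]
        exact star_31 (by rw [h1]; norm_num) (by linarith) h3

/-- (L3) The inequality for a class with outer edges `O`, except the types (5,1) and (4,2) with `a < 2`. -/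
theorem bdry0 (h : FaceFacts2 F a l ch y) (ha : 0 < a) (O : Finset E) (hO : O ⊆ F)
    (hO1 : 1 ≤ O.card) (hO2 : 2 * O.card ≤ F.card) (hin : ∀ e ∈ F \ O, l e ≤ 3 * min 1 a)
    (hout : ∀ e ∈ O, l e ≤ 3 * min 1 a + a / 20)
    (h41 : ¬ (F.card = 5 ∧ O.card = 1 ∧ a < 2)) (h22 : ¬ (F.card = 4 ∧ O.card = 2 ∧ a < 2))
    {e pay : ℝ} (he1 : 283 / 2000 ≤ e) (he2 : e ≤ 285 / 2000)
    (hpay1 : pay ≤ 14 / 1000 * (O.card : ℝ))
    (hpay2 : F.card = 5 → O.card = 2 → pay ≤ 14 / 1000) :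
    6 * min 1 a + e * (6 - (F.card : ℝ) - O.card) +
        2 * (5236 / 10000) * ∑ e ∈ O, (if a < 2 then ch e else l e) + pay +
        1 / 100000 * ((F.card : ℝ) + √a + ∑ e ∈ O, l e) ≤
      ∑ e ∈ F, l e + ∑ e ∈ O, l e + 3 * ∑ e ∈ F \ O, y e := by
  have hX : be * (A0 * ∑ e ∈ F \ O, y e) = 3 * ∑ e ∈ F \ O, y e := by
    rw [← mul_assoc, be_A0]
  have hch0 : 0 ≤ ∑ e ∈ O, ch e := Finset.sum_nonneg fun e he => h.ch_nonneg e (hO he)
  have hl0 : 0 ≤ ∑ e ∈ O, l e :=
    Finset.sum_nonneg fun e he => (h.ch_nonneg e (hO he)).trans (h.ch_le e (hO he))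
  rw [← hX, ← Finset.sum_sdiff hO]
  by_cases ha2 : a < 2
  · have hch : ∑ e ∈ O, (if a < 2 then ch e else l e) = ∑ e ∈ O, ch e :=
      Finset.sum_congr rfl fun e _ => if_pos ha2
    rw [hch]
    have hkey := bf_key h ha ha2 O hO hO1 hO2 hin hout (fun h1 => h41 ⟨h1.1, h1.2, ha2⟩)
      (fun h1 => h22 ⟨h1.1, h1.2, ha2⟩) he1 he2 hpay1 hpay2 rfl
    have hYs : ∑ e ∈ O, (l e - cN * ch e) = ∑ e ∈ O, l e - cN * ∑ e ∈ O, ch e := by
      rw [Finset.sum_sub_distrib, Finset.mul_sum]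
    rw [hYs] at hkey
    unfold c1 cN at hkey
    linarith
  · have ha2' : 2 ≤ a := not_lt.1 ha2
    have hm : min 1 a = 1 := min_eq_left (by linarith)
    have hch : ∑ e ∈ O, (if a < 2 then ch e else l e) = ∑ e ∈ O, l e :=
      Finset.sum_congr rfl fun e _ => if_neg ha2
    rw [hch, hm]
    rw [hm] at hin
    have hb := big h O hO hO1 (by omega) (by omega) ha2' (fun e he => (hin e he).trans (by norm_num))
      he1 he2 hpay1
    unfold c1 cN at hb
    linarith

/-- (L4) The type (5,1) with `a < 2`, without shifts. -/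
theorem bdry41_00 (h : FaceFacts2 F a l ch y) (ha : 0 < a) (ha2 : a < 2) (O : Finset E) (hO : O ⊆ F)
    (hO1 : O.card = 1) (hF : F.card = 5) (hin : ∀ e ∈ F \ O, l e ≤ 3 * min 1 a) :
    6 * min 1 a + 2 * (5236 / 10000) * ∑ e ∈ O, ch e +
        1 / 100000 * ((F.card : ℝ) + √a + ∑ e ∈ O, l e) ≤
      ∑ e ∈ F, l e + ∑ e ∈ O, l e + 3 * ∑ e ∈ F \ O, y e + 13 / 1000 := by
  have hX : be * (A0 * ∑ e ∈ F \ O, y e) = 3 * ∑ e ∈ F \ O, y e := by
    rw [← mul_assoc, be_A0]
  have hch0 : 0 ≤ ∑ e ∈ O, ch e := Finset.sum_nonneg fun e he => h.ch_nonneg e (hO he)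
  have hl0 : 0 ≤ ∑ e ∈ O, l e :=
    Finset.sum_nonneg fun e he => (h.ch_nonneg e (hO he)).trans (h.ch_le e (hO he))
  have hm1 : min 1 a ≤ 1 := min_le_left _ _
  have hma : min 1 a ≤ a := min_le_right _ _
  have hin3 : ∀ e ∈ F \ O, l e ≤ 3 := fun e he => (hin e he).trans (by linarith)
  have hsa : √a ≤ 1.42 := by
    rw [Real.sqrt_le_iff]
    norm_num
    linarith
  have hcard : (F \ O).card = 4 := by
    rw [Finset.card_sdiff_of_subset hO]
    omega
  have hFr : (F.card : ℝ) = 5 := by rw [hF]; norm_num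
  rw [← hX, ← Finset.sum_sdiff hO, hFr]
  have hYs : ∑ e ∈ O, (l e - cN * ch e) = ∑ e ∈ O, l e - cN * ∑ e ∈ O, ch e := by
    rw [Finset.sum_sub_distrib, Finset.mul_sum]
  obtain ⟨W, hW⟩ : ∃ W, W = (1 - c1) * ∑ e ∈ O, (l e - cN * ch e) + 0.0064 := ⟨_, rfl⟩
  have hkey : 3 * min 1 a - W ≤ (∑ e ∈ F \ O, l e + be * (A0 * ∑ e ∈ F \ O, y e)) / 2 := by
    rcases le_or_gt (3 * min 1 a - W) 0 with hV | hV
    · exact hV.trans (nonneg_in h (F \ O) Finset.sdiff_subset hin3).2
    refine key_pos h O hO (by omega) (by omega) hin3 hm1 hma hV hW (by norm_num) ?_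
    intro Y hY hYW hWp hEW hW3
    rw [hcard, hO1]
    exact star_41 hYW hEW hW3
  rw [hW, hYs] at hkey
  unfold c1 cN at hkey
  linarith

end Pool.Agent.Helper38.LC3
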