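import Pool.Agent.Helper38.LC2.Local

/-!
# Project LC3, sharp local inequalities: definitions

The functions `psi`, `gg`, `DD` of LC2 with the constant `c` as a parameter (`0 < c < 11/20`, as instances of `Fact`).
-/

namespace Pool.Agent.Helper38.LC3

open Finset Real Pool.Agent.Helper98.LC

/-- the angle of `exp (i θ) - c`, for `0 < θ < π` -/
noncomputable def psi (c θ : ℝ) : ℝ := π / 2 - arctan ((Real.cos θ - c) / Real.sin θ)

/-- `θ - c sin θ` -/
noncomputable def gg (c θ : ℝ) : ℝ := θ - c * Real.sin θ

/-- `|exp (i θ) - c|²` -/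
noncomputable def DD (c θ : ℝ) : ℝ := 1 - 2 * c * Real.cos θ + c ^ 2

/-- the constant for the classes with strict inequality, larger than `π / 6` -/
noncomputable def cN : ℝ := 52361 / 100000

instance : Fact (0 < cN) := ⟨by unfold cN; norm_num⟩

instance : Fact (cN < 11 / 20) := ⟨by unfold cN; norm_num⟩

end Pool.Agent.Helper38.LC3
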