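import Pool.Agent.Helper38.LC3.Defs

/-!
# Project LC3: classes without outer edges (`L1`, `L2`)

Price `e ∈ [283/2000, 285/2000]`.  The critical case is `F.card = 5` with small positive total bulge `X`: there the inequality `l² ≥ ch² + 3 x²` for the
edges with `l ≤ 2` is used, and a fixed pair of angles if some edge is longer than `2`.
-/

namespace Pool.Agent.Helper38.LC3

open Finset Real Pool.Agent.Helper98.LC
open Pool.Agent.Helper38.LC2 (ct FaceFacts2 be c1 eps A0_pos be_pos be_A0 be_sq fix_mult fix_V be_num A0_num perim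
  edge_half face_two nonneg_in face_refl int_base int_large int_num int_fix in_three mix edge_quart
  arctan_three arctan_four interior_face int_six)

variable {E : Type} [DecidableEq E] {F : Finset E} {a : ℝ} {l ch y : E → ℝ}

/-- large classes -/
theorem int_big (h : FaceFacts2 F a l ch y) (ha : 8 ≤ a) (hin : ∀ e ∈ F, l e ≤ 3) :
    6.8 + 1 / 100000 * √a ≤ ∑ e ∈ F, l e + be * (A0 * ∑ e ∈ F, y e) := by
  have hp := perim h (by linarith : (0 : ℝ) ≤ a)
  have hn := (nonneg_in h F (Finset.Subset.refl _) hin).1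
  have hs : (2.828 : ℝ) ≤ √a := by
    apply Real.le_sqrt_of_sq_le
    norm_num
    linarith
  have hb := be_num
  have hb0 := be_pos
  have hpi := Real.pi_gt_d2
  have h1 : -|A0 * ∑ e ∈ F, y e| ≤ A0 * ∑ e ∈ F, y e := neg_abs_le _
  have h2 : 0 ≤ |A0 * ∑ e ∈ F, y e| := abs_nonneg _
  have h3 : be * -|A0 * ∑ e ∈ F, y e| ≤ be * (A0 * ∑ e ∈ F, y e) :=
    mul_le_mul_of_nonneg_left h1 hb0.le
  have h4 : be * |A0 * ∑ e ∈ F, y e| ≤ 1.1547006 * |A0 * ∑ e ∈ F, y e| :=
    mul_le_mul_of_nonneg_right hb.2 h2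
  have h5 : 2.093 * |A0 * ∑ e ∈ F, y e| ≤ 2 * π / 3 * |A0 * ∑ e ∈ F, y e| :=
    mul_le_mul_of_nonneg_right (by linarith) h2
  linarith

/-- `∑ l² ≥ …` with the constant `3` if all edges are `≤ 2` -/
theorem mink3 (h : FaceFacts2 F a l ch y) (hl : ∀ e ∈ F, l e ≤ 2) :
    (∑ e ∈ F, ch e) ^ 2 + 3 * (A0 * ∑ e ∈ F, y e) ^ 2 ≤ (∑ e ∈ F, l e) ^ 2 := by
  have hq : √(3 : ℝ) ^ 2 = 3 := Real.sq_sqrt (by norm_num)
  have h1 : ∀ e ∈ F, ‖(⟨ch e, √3 * (A0 * y e)⟩ : ℂ)‖ ≤ l e := by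
    intro e he
    have h3 : 0 ≤ l e := (h.ch_nonneg e he).trans (h.ch_le e he)
    have h2 : ch e ^ 2 + 3 * (A0 * y e) ^ 2 ≤ l e ^ 2 := by
      have h1 := edge_quart h he
      have hs := h.ch_nonneg e he
      have hsL := h.ch_le e he
      have hl2 := hl e he
      have h2 : 0 ≤ l e ^ 2 - ch e ^ 2 := by nlinarith
      have h3 : l e ^ 2 ≤ 4 := by nlinarith
      have h4 : l e ^ 2 * (l e ^ 2 - ch e ^ 2) ≤ 4 * (l e ^ 2 - ch e ^ 2) :=
        mul_le_mul_of_nonneg_right h3 h2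
      linarith
    rw [Complex.norm_def, Complex.normSq_mk]
    refine Real.sqrt_le_iff.2 ⟨h3, ?_⟩
    have h4 : ch e * ch e + √3 * (A0 * y e) * (√3 * (A0 * y e)) =
        ch e ^ 2 + √3 ^ 2 * (A0 * y e) ^ 2 := by ring
    rw [h4, hq]
    exact h2
  have h2 : ‖∑ e ∈ F, (⟨ch e, √3 * (A0 * y e)⟩ : ℂ)‖ ≤ ∑ e ∈ F, l e :=
    (norm_sum_le _ _).trans (Finset.sum_le_sum h1)
  have h3 : ∑ e ∈ F, (⟨ch e, √3 * (A0 * y e)⟩ : ℂ) =
      ⟨∑ e ∈ F, ch e, √3 * (A0 * ∑ e ∈ F, y e)⟩ := by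
    apply Complex.ext
    · rw [Complex.re_sum]
    · rw [Complex.im_sum]
      simp only
      rw [← Finset.mul_sum, ← Finset.mul_sum]
  rw [h3] at h2
  have h4 := pow_le_pow_left₀ (norm_nonneg _) h2 2
  rw [← Complex.normSq_eq_norm_sq, Complex.normSq_mk] at h4
  have h5 : (∑ e ∈ F, ch e) * (∑ e ∈ F, ch e) +
      √3 * (A0 * ∑ e ∈ F, y e) * (√3 * (A0 * ∑ e ∈ F, y e)) =
      (∑ e ∈ F, ch e) ^ 2 + √3 ^ 2 * (A0 * ∑ e ∈ F, y e) ^ 2 := by ring
  rw [h5, hq] at h4
  exact h4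

theorem arctan_five' : 5 * arctan (3.6327 / 5) < π := by
  have hc := Real.cos_pi_div_five
  have h5 : √5 ≤ 2.236068 := by
    rw [Real.sqrt_le_iff]
    norm_num
  have h50 : 0 ≤ √5 := Real.sqrt_nonneg 5
  have h5s : √5 ^ 2 = 5 := Real.sq_sqrt (by norm_num)
  have hcp : 0 < Real.cos (π / 5) := by rw [hc]; positivity
  have hsp : 0 < Real.sin (π / 5) :=
    Real.sin_pos_of_pos_of_lt_pi (by positivity) (by linarith [pi_pos])
  have hsc := Real.sin_sq_add_cos_sq (π / 5)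
  have hlt : 3.6327 / 5 < Real.tan (π / 5) := by
    rw [Real.tan_eq_sin_div_cos, lt_div_iff₀ hcp]
    have h6 : (3.6327 / 5 * Real.cos (π / 5)) ^ 2 < Real.sin (π / 5) ^ 2 := by
      have h7 : Real.cos (π / 5) ^ 2 ≤ 0.6545086 := by
        rw [hc]
        nlinarith
      nlinarith
    exact lt_of_pow_lt_pow_left₀ 2 hsp.le h6
  have h1 := Real.arctan_strictMono hlt
  rw [Real.arctan_tan (by linarith [pi_pos]) (by linarith [pi_pos])] at h1
  linarith

/-- the chord polygon with five sides -/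
theorem poly5 (h : FaceFacts2 F a l ch y) (hF : F.card = 5) {m : ℝ} (hm : m ≤ a) :
    4 * 3.6327 * (A0 * m - A0 * ∑ e ∈ F, y e) ≤ (∑ e ∈ F, ch e) ^ 2 := by
  have hφ : 0 < arctan (3.6327 / 5) := by
    rw [Real.arctan_pos]
    norm_num
  have h1 := mix h F (Finset.Subset.refl _) (by omega) hφ (Real.arctan_lt_pi_div_two _)
    (fun _ => 1) (by simp) (by
      rw [Finset.sdiff_self, Finset.sum_empty, add_zero, hF]
      push_cast
      exact arctan_five')
  rw [Finset.sdiff_self, Finset.sum_empty, add_zero, hF] at h1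
  have h2 : ct (arctan (3.6327 / 5)) = 5 / 3.6327 := by
    have h3 := Real.tan_arctan (3.6327 / 5)
    rw [Real.tan_eq_sin_div_cos] at h3
    unfold ct
    rw [← inv_div, h3]
    norm_num
  rw [h2] at h1
  push_cast at h1
  have h3 : A0 * m ≤ A0 * a := mul_le_mul_of_nonneg_left hm A0_pos.le
  have h4 : 4 * (A0 * m - A0 * ∑ e ∈ F, y e) ≤
      5 / 3.6327 * (∑ e ∈ F, ch e) ^ 2 / 5 := by linarith
  have h5 : (5 / 3.6327 * (∑ e ∈ F, ch e) ^ 2 / 5 : ℝ) = (∑ e ∈ F, ch e) ^ 2 / 3.6327 := by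
    field_simp
  rw [h5, le_div_iff₀ (by norm_num)] at h4
  linarith

theorem arctan_mix : 4 * arctan (54 / 100) + arctan (229 / 100) < π := by
  have h1 : arctan (54 / 100) + arctan (54 / 100) = arctan (2700 / 1771) := by
    rw [Real.arctan_add (by norm_num)]
    norm_num
  have h2 : arctan (2700 / 1771) + arctan (229 / 100) =
      arctan ((2700 / 1771 + 229 / 100) / (1 - 2700 / 1771 * (229 / 100))) + π := by
    rw [Real.arctan_add_eq_add_pi (by norm_num) (by norm_num)]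
  have h3 : arctan (2700 / 1771) <
      -arctan ((2700 / 1771 + 229 / 100) / (1 - 2700 / 1771 * (229 / 100))) := by
    rw [← Real.arctan_neg]
    apply Real.arctan_strictMono
    norm_num
  linarith

/-- a long edge in a five-sided class -/
theorem long5 (h : FaceFacts2 F a l ch y) (hF : F.card = 5) {f : E} (hf : f ∈ F) {m : ℝ}
    (hm : m ≤ a) (hm1 : m ≤ 1) (hf2 : 2 ≤ l f) (hf3 : l f ≤ 3)
    (hX0 : 0.05 ≤ A0 * ∑ e ∈ F, y e) (hX1 : A0 * ∑ e ∈ F, y e ≤ 0.3713) :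
    3 * m + 0.07129 ≤ (∑ e ∈ F, l e + be * (A0 * ∑ e ∈ F, y e)) / 2 := by
  by_contra hcon
  push Not at hcon
  have hφ : 0 < arctan (54 / 100) := by
    rw [Real.arctan_pos]
    norm_num
  have hψ : 0 < arctan (229 / 100) := by
    rw [Real.arctan_pos]
    norm_num
  have hI : F.erase f ⊆ F := Finset.erase_subset _ _
  have hIc : (F.erase f).card = 4 := by
    rw [Finset.card_erase_of_mem hf]
    omega
  have hsd : F \ F.erase f = {f} := by
    ext e
    simp only [mem_sdiff, mem_erase, mem_singleton, not_and]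
    constructor
    · intro h1
      by_contra h2
      exact h1.2 h2 h1.1
    · intro h1
      rw [h1]
      exact ⟨hf, fun h2 => absurd rfl h2⟩
  have h1 := mix h (F.erase f) hI (by omega) hφ (Real.arctan_lt_pi_div_two _)
    (fun _ => arctan (229 / 100)) (fun _ _ => hψ) (by
      rw [hsd, Finset.sum_singleton, hIc]
      push_cast
      exact arctan_mix)
  have hct : ∀ x : ℝ, ct (arctan x) = 1 / x := by
    intro x
    have h3 := Real.tan_arctan x
    rw [Real.tan_eq_sin_div_cos] at h3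
    unfold ct
    rw [← one_div_div, h3]
  rw [hsd, Finset.sum_singleton, hIc, hct, hct] at h1
  push_cast at h1
  have hb := be_num
  have hA := A0_num
  have hs : ∑ e ∈ F.erase f, ch e ≤ ∑ e ∈ F, l e - l f := by
    rw [← Finset.sum_erase_eq_sub hf]
    exact Finset.sum_le_sum fun e he => h.ch_le e (hI he)
  have hs0 : 0 ≤ ∑ e ∈ F.erase f, ch e :=
    Finset.sum_nonneg fun e he => h.ch_nonneg e (hI he)
  have hc0 := h.ch_nonneg f hf
  have hcl := h.ch_le f hf
  have h3 : A0 * m ≤ A0 * a := mul_le_mul_of_nonneg_left hm A0_pos.le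
  have hchf : ch f ^ 2 ≤ l f ^ 2 := pow_le_pow_left₀ hc0 hcl 2
  obtain ⟨X, hX⟩ : ∃ X, X = A0 * ∑ e ∈ F, y e := ⟨_, rfl⟩
  have h1' : 4 * (A0 * a - X) ≤ 1 / (54 / 100) * (∑ e ∈ F.erase f, ch e) ^ 2 / 4 +
      1 / (229 / 100) * ch f ^ 2 := by
    rw [hX, ← mul_sub]
    exact h1
  rw [← hX] at hX0 hX1 hcon
  generalize ∑ e ∈ F.erase f, ch e = S at *
  generalize ∑ e ∈ F, l e = L at *
  generalize l f = x at *
  have hbX : 1.1547004 * X ≤ be * X := mul_le_mul_of_nonneg_right hb.1 (by linarith)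
  -- `S ≤ Z := 6 m + .14258 - 1.1547004 X - x`
  have hS : S ≤ 6 * m + 0.14258 - 1.1547004 * X - x := by linarith
  have hm2 : 0 ≤ m := by linarith
  have hAm : 2.598076 * m ≤ A0 * m := mul_le_mul_of_nonneg_right hA.1 hm2
  have hSq : S ^ 2 ≤ 4.1 * S := by nlinarith
  have hxq : x ^ 2 ≤ 5 * x - 6 := by nlinarith
  -- better bound for `S ^ 2`
  rcases le_or_gt S 1.6 with h16 | h16
  · nlinarith
  · have hSq2 : S ^ 2 ≤ 5.7 * S - 6.56 := by nlinarith
    nlinarith

end Pool.Agent.Helper38.LC3
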