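import Pool.Agent.Helper38.LC3.StarGen

/-!
# Project LC3: numerical bounds for `psi (2 arctan u)`, `gg (2 arctan u)`, `arctan t`
-/

namespace Pool.Agent.Helper38.LC3

open Finset Real Pool.Agent.Helper98.LC
open Pool.Agent.Helper38.LC2 (arctan_quarter arctan_upper arctan_lower)

variable {c : ℝ} [h0c : Fact (0 < c)] [h1c : Fact (c < 11 / 20)]

/-- `1 / x ≥ 1`: the angle is `π/4 + arctan ((1 - x)/(1 + x))` -/
theorem psi_a {u x p : ℝ} (hu : 0 < u) (hu1 : u < 1) (hx0 : 0 < x) (hx1 : x ≤ 1)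
    (hx : x * (2 * u) ≤ 1 - u ^ 2 - c * (1 + u ^ 2))
    (hp : 3.141593 / 4 + ((1 - x) / (1 + x) - ((1 - x) / (1 + x)) ^ 3 / 3 +
      ((1 - x) / (1 + x)) ^ 5 / 5 - ((1 - x) / (1 + x)) ^ 7 / 7 + ((1 - x) / (1 + x)) ^ 9 / 9) ≤ p) :
    psi c (2 * arctan u) ≤ p := by
  rw [psi_two hu hu1]
  have h1 : x ≤ (1 - u ^ 2 - c * (1 + u ^ 2)) / (2 * u) := by
    rw [le_div_iff₀ (by linarith)]
    exact hx
  have h2 : arctan x ≤ arctan ((1 - u ^ 2 - c * (1 + u ^ 2)) / (2 * u)) :=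
    arctan_strictMono.monotone h1
  have h3 := arctan_quarter hx0
  have h4 : 0 ≤ (1 - x) / (1 + x) := div_nonneg (by linarith) (by linarith)
  have h5 := arctan_upper h4
  have h6 := Real.pi_lt_d6
  linarith

/-- `1 / x ≤ 1`: the angle is `π/4 - arctan ((x - 1)/(1 + x))` -/
theorem psi_b {u x p : ℝ} (hu : 0 < u) (hu1 : u < 1) (hx1 : 1 ≤ x)
    (hx : x * (2 * u) ≤ 1 - u ^ 2 - c * (1 + u ^ 2))
    (hp : 3.141593 / 4 - ((x - 1) / (1 + x) - ((x - 1) / (1 + x)) ^ 3 / 3 +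
      ((x - 1) / (1 + x)) ^ 5 / 5 - ((x - 1) / (1 + x)) ^ 7 / 7 + ((x - 1) / (1 + x)) ^ 9 / 9 -
      ((x - 1) / (1 + x)) ^ 11 / 11) ≤ p) :
    psi c (2 * arctan u) ≤ p := by
  rw [psi_two hu hu1]
  have h1 : x ≤ (1 - u ^ 2 - c * (1 + u ^ 2)) / (2 * u) := by
    rw [le_div_iff₀ (by linarith)]
    exact hx
  have h2 : arctan x ≤ arctan ((1 - u ^ 2 - c * (1 + u ^ 2)) / (2 * u)) :=
    arctan_strictMono.monotone h1
  have h3 := arctan_quarter (show (0 : ℝ) < x by linarith)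
  have h4 : 0 ≤ (x - 1) / (1 + x) := div_nonneg (by linarith) (by linarith)
  have h5 := arctan_lower h4
  have h7 : (1 - x) / (1 + x) = -((x - 1) / (1 + x)) := by
    rw [← neg_div]
    congr 1
    ring
  rw [h7, arctan_neg] at h3
  have h6 := Real.pi_lt_d6
  linarith

/-- small `x`: the angle is `π/2 - arctan x` -/
theorem psi_c {u x p : ℝ} (hu : 0 < u) (hu1 : u < 1) (hx0 : 0 < x)
    (hx : x * (2 * u) ≤ 1 - u ^ 2 - c * (1 + u ^ 2))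
    (hp : 3.141593 / 2 - (x - x ^ 3 / 3 + x ^ 5 / 5 - x ^ 7 / 7 + x ^ 9 / 9 - x ^ 11 / 11) ≤ p) :
    psi c (2 * arctan u) ≤ p := by
  rw [psi_two hu hu1]
  have h1 : x ≤ (1 - u ^ 2 - c * (1 + u ^ 2)) / (2 * u) := by
    rw [le_div_iff₀ (by linarith)]
    exact hx
  have h2 : arctan x ≤ arctan ((1 - u ^ 2 - c * (1 + u ^ 2)) / (2 * u)) :=
    arctan_strictMono.monotone h1
  have h5 := arctan_lower hx0.le
  have h6 := Real.pi_lt_d6
  linarith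

/-- negative `-x`: the angle is `π/2 + arctan x` -/
theorem psi_d {u x p : ℝ} (hu : 0 < u) (hu1 : u < 1) (hx0 : 0 ≤ x)
    (hx : -x * (2 * u) ≤ 1 - u ^ 2 - c * (1 + u ^ 2))
    (hp : 3.141593 / 2 + (x - x ^ 3 / 3 + x ^ 5 / 5 - x ^ 7 / 7 + x ^ 9 / 9) ≤ p) :
    psi c (2 * arctan u) ≤ p := by
  rw [psi_two hu hu1]
  have h1 : -x ≤ (1 - u ^ 2 - c * (1 + u ^ 2)) / (2 * u) := by
    rw [le_div_iff₀ (by linarith)]
    exact hx
  have h2 : arctan (-x) ≤ arctan ((1 - u ^ 2 - c * (1 + u ^ 2)) / (2 * u)) :=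
    arctan_strictMono.monotone h1
  have h5 := arctan_upper hx0
  have h6 := Real.pi_lt_d6
  rw [arctan_neg] at h2
  linarith

theorem gg_num {u q : ℝ} (hu : 0 < u) (hu1 : u < 1)
    (hq : q ≤ 2 * (u - u ^ 3 / 3 + u ^ 5 / 5 - u ^ 7 / 7 + u ^ 9 / 9 - u ^ 11 / 11) -
      c * (2 * u / (1 + u ^ 2))) : q ≤ gg c (2 * arctan u) := by
  rw [gg_two hu hu1]
  have h1 := arctan_lower hu.le
  linarith

theorem arc_a {t T : ℝ} (ht : 0 < t) (ht1 : t ≤ 1)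
    (hT : 3.141593 / 4 - ((1 - t) / (1 + t) - ((1 - t) / (1 + t)) ^ 3 / 3 +
      ((1 - t) / (1 + t)) ^ 5 / 5 - ((1 - t) / (1 + t)) ^ 7 / 7 + ((1 - t) / (1 + t)) ^ 9 / 9 -
      ((1 - t) / (1 + t)) ^ 11 / 11) ≤ T) : arctan t ≤ T := by
  rw [arctan_quarter ht]
  have h4 : 0 ≤ (1 - t) / (1 + t) := div_nonneg (by linarith) (by linarith)
  have h5 := arctan_lower h4
  have h6 := Real.pi_lt_d6
  linarith

theorem arc_b {t T : ℝ} (ht : 1 ≤ t)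
    (hT : 3.141593 / 4 + ((t - 1) / (1 + t) - ((t - 1) / (1 + t)) ^ 3 / 3 +
      ((t - 1) / (1 + t)) ^ 5 / 5 - ((t - 1) / (1 + t)) ^ 7 / 7 + ((t - 1) / (1 + t)) ^ 9 / 9) ≤ T) :
    arctan t ≤ T := by
  rw [arctan_quarter (by linarith)]
  have h4 : 0 ≤ (t - 1) / (1 + t) := div_nonneg (by linarith) (by linarith)
  have h5 := arctan_upper h4
  have h7 : (1 - t) / (1 + t) = -((t - 1) / (1 + t)) := by
    rw [← neg_div]
    congr 1
    ring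
  rw [h7, arctan_neg]
  have h6 := Real.pi_lt_d6
  linarith

theorem arc_c {t T : ℝ} (ht : 0 < t)
    (hT : t - t ^ 3 / 3 + t ^ 5 / 5 - t ^ 7 / 7 + t ^ 9 / 9 ≤ T) : arctan t ≤ T :=
  (arctan_upper ht.le).trans hT

end Pool.Agent.Helper38.LC3
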