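import Pool.Agent.Helper38.LC3.Psi


namespace Pool.Agent.Helper38.LC3

open Finset Real Pool.Agent.Helper98.LC
open Pool.Agent.Helper38.LC2 (ct FaceFacts2 be c1 A0_pos be_pos be_A0 be_sq fix_mult fix_V)

variable {c : ℝ} [h0c : Fact (0 < c)] [h1c : Fact (c < 11 / 20)]

theorem outer_edge {E : Type} [DecidableEq E] {F : Finset E} {a : ℝ} {l ch y : E → ℝ}
    (h : FaceFacts2 F a l ch y) {e : E} (he : e ∈ F) {θ : ℝ} (h0 : 0 < θ) (h1 : θ < π) :
    A0 * y e + ct (psi c θ) * ch e ^ 2 / 4 ≤ (l e - c * ch e) ^ 2 / (4 * gg c θ) := by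
  have hS : 0 < Real.sin θ := sin_pos_of_pos_of_lt_pi h0 h1
  have hg : 0 < gg c θ := gg_pos h0
  have hc : 0 < c := by linarith [h0c.out, h1c.out]
  have hgθ : θ = gg c θ + c * Real.sin θ := by unfold gg; ring
  have hd := h.dido e he θ h0 h1
  rw [ct_psi h0 h1]
  unfold ct at hd
  have hx : A0 * y e ≤ A0 * |y e| := mul_le_mul_of_nonneg_left (le_abs_self _) A0_pos.le
  set S := Real.sin θ
  set C := Real.cos θ
  set g := gg c θ
  set c := c
  set L := l e
  set s := ch e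
  set x := A0 * |y e|
  have hd2 : 4 * x ≤ L ^ 2 / θ - C / S * s ^ 2 := by
    rw [le_sub_iff_add_le, le_div_iff₀ h0]
    linarith
  have key : (L - c * s) ^ 2 / g + c * s ^ 2 / S - L ^ 2 / θ =
      ((L - c * s) * (c * S) - c * s * g) ^ 2 / (g * (c * S) * θ) := by
    have hθ : θ ≠ 0 := h0.ne'
    rw [eq_div_iff (by positivity)]
    field_simp
    rw [hgθ]
    ring
  have hpos : 0 ≤ ((L - c * s) * (c * S) - c * s * g) ^ 2 / (g * (c * S) * θ) := by positivity
  have h4 : (L - c * s) ^ 2 / (4 * g) = (L - c * s) ^ 2 / g / 4 := by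
    rw [div_div, mul_comm 4 g]
  have h5 : (C - c) / S * s ^ 2 / 4 = (C / S * s ^ 2 - c * s ^ 2 / S) / 4 := by
    field_simp
  rw [h4, h5]
  linarith

end Pool.Agent.Helper38.LC3
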