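import Pool.Agent.Helper38.LC3.Defs


namespace Pool.Agent.Helper38.LC3

open Finset Real Pool.Agent.Helper98.LC
open Pool.Agent.Helper38.LC2 (ct FaceFacts2 be c1 A0_pos be_pos be_A0 be_sq fix_mult fix_V)

variable {c : ℝ} [h0c : Fact (0 < c)] [h1c : Fact (c < 11 / 20)]

private theorem ps_c0 : 0 < c := h0c.out

private theorem ps_c1 : c < 11 / 20 := h1c.out

private theorem ps_hasDeriv {θ : ℝ} (h0 : 0 < θ) (h1 : θ < π) :
    HasDerivAt (psi c) ((1 - c * Real.cos θ) / DD c θ) θ := by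
  have hs : 0 < Real.sin θ := Real.sin_pos_of_pos_of_lt_pi h0 h1
  have hu : HasDerivAt (fun x : ℝ => (Real.cos x - c) / Real.sin x)
      ((-Real.sin θ * Real.sin θ - (Real.cos θ - c) * Real.cos θ) / Real.sin θ ^ 2) θ :=
    ((Real.hasDerivAt_cos θ).sub_const c).fun_div (Real.hasDerivAt_sin θ) hs.ne'
  have h2 := (hu.arctan).const_sub (π / 2)
  refine (h2.congr_deriv ?_)
  have hsc := Real.sin_sq_add_cos_sq θ
  have hD : DD c θ = Real.sin θ ^ 2 * (1 + ((Real.cos θ - c) / Real.sin θ) ^ 2) := by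
    unfold DD
    field_simp
    linear_combination -hsc
  have hp : (0 : ℝ) < 1 + ((Real.cos θ - c) / Real.sin θ) ^ 2 := by positivity
  rw [hD]
  field_simp
  linear_combination hsc

private theorem ps_gg_hasDeriv (θ : ℝ) : HasDerivAt (gg c) (1 - c * Real.cos θ) θ :=
  (hasDerivAt_id θ).sub ((Real.hasDerivAt_sin θ).const_mul c)

theorem DD_pos (θ : ℝ) : (1 - c) ^ 2 ≤ DD c θ ∧ 0 < DD c θ := by
  have h1 := Real.cos_le_one θ
  have h2 := h0c.out
  have h3 : (1 - c) ^ 2 ≤ DD c θ := by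
    unfold DD
    nlinarith [mul_nonneg h2.le (sub_nonneg.mpr h1)]
  refine ⟨h3, lt_of_lt_of_le ?_ h3⟩
  have h4 := h1c.out
  exact pow_pos (by linarith) 2

theorem psi_pos {θ : ℝ} (h0 : 0 < θ) (h1 : θ < π) : 0 < psi c θ ∧ psi c θ < π := by
  have h2 := Real.neg_pi_div_two_lt_arctan ((Real.cos θ - c) / Real.sin θ)
  have h3 := Real.arctan_lt_pi_div_two ((Real.cos θ - c) / Real.sin θ)
  unfold psi
  constructor <;> linarith

theorem ct_psi {θ : ℝ} (h0 : 0 < θ) (h1 : θ < π) :
    ct (psi c θ) = (Real.cos θ - c) / Real.sin θ := by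
  unfold ct psi
  rw [Real.cos_pi_div_two_sub, Real.sin_pi_div_two_sub, ← Real.tan_eq_sin_div_cos,
    Real.tan_arctan]

theorem gg_pos {θ : ℝ} (h0 : 0 < θ) : 0 < gg c θ := by
  have h1 := Real.sin_lt h0
  have h2 := h0c.out
  have h3 := h1c.out
  unfold gg
  nlinarith [mul_pos h2 (sub_pos.mpr h1)]

theorem psi_tangent {θ θ₀ : ℝ} (h0 : 0 < θ) (h1 : θ < π) (h2 : 0 < θ₀) (h3 : θ₀ < π) :
    psi c θ ≤ psi c θ₀ + (gg c θ - gg c θ₀) / DD c θ₀ := by
  have hder : ∀ x : ℝ, 0 < x → x < π → HasDerivAt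
      (fun x => psi c θ₀ + (gg c x - gg c θ₀) / DD c θ₀ - psi c x)
      ((1 - c * Real.cos x) / DD c θ₀ - (1 - c * Real.cos x) / DD c x) x := by
    intro x hx0 hx1
    exact ((((ps_gg_hasDeriv x).sub_const (gg c θ₀)).div_const (DD c θ₀)).const_add (psi c θ₀)).sub
      (ps_hasDeriv hx0 hx1)
  have hnum : ∀ x : ℝ, 0 ≤ 1 - c * Real.cos x := by
    intro x
    have a1 := Real.cos_le_one x
    have a2 := h0c.out
    have a3 := h1c.out
    nlinarith [mul_nonneg a2.le (sub_nonneg.mpr a1)]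
  have hDD : ∀ x y : ℝ, 0 ≤ x → x ≤ y → y ≤ π → DD c x ≤ DD c y := by
    intro x y a1 a2 a3
    have a4 := Real.cos_le_cos_of_nonneg_of_le_pi a1 a3 a2
    have a5 := h0c.out
    unfold DD
    nlinarith [mul_nonneg a5.le (sub_nonneg.mpr a4)]
  have hz : (fun x => psi c θ₀ + (gg c x - gg c θ₀) / DD c θ₀ - psi c x) θ₀ = 0 := by
    simp
  have key : 0 ≤ (fun x => psi c θ₀ + (gg c x - gg c θ₀) / DD c θ₀ - psi c x) θ := by
    rcases le_total θ₀ θ with hle | hle
    · have hm : MonotoneOn (fun x => psi c θ₀ + (gg c x - gg c θ₀) / DD c θ₀ - psi c x)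
          (Set.Icc θ₀ θ) := by
        refine monotoneOn_of_deriv_nonneg (convex_Icc θ₀ θ) ?_ ?_ ?_
        · intro x hx
          exact (hder x (by linarith [hx.1]) (by linarith [hx.2])).continuousAt.continuousWithinAt
        · intro x hx
          rw [interior_Icc] at hx
          exact (hder x (by linarith [hx.1]) (by linarith [hx.2])).differentiableAt.differentiableWithinAt
        · intro x hx
          rw [interior_Icc] at hx
          rw [(hder x (by linarith [hx.1]) (by linarith [hx.2])).deriv]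
          have a1 := hDD θ₀ x h2.le hx.1.le (by linarith [hx.2])
          have a2 := div_le_div_of_nonneg_left (hnum x) (DD_pos θ₀).2 a1
          linarith
      rw [← hz]
      exact hm (Set.left_mem_Icc.mpr hle) (Set.right_mem_Icc.mpr hle) hle
    · have hm : AntitoneOn (fun x => psi c θ₀ + (gg c x - gg c θ₀) / DD c θ₀ - psi c x)
          (Set.Icc θ θ₀) := by
        refine antitoneOn_of_deriv_nonpos (convex_Icc θ θ₀) ?_ ?_ ?_
        · intro x hx
          exact (hder x (by linarith [hx.1]) (by linarith [hx.2])).continuousAt.continuousWithinAt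
        · intro x hx
          rw [interior_Icc] at hx
          exact (hder x (by linarith [hx.1]) (by linarith [hx.2])).differentiableAt.differentiableWithinAt
        · intro x hx
          rw [interior_Icc] at hx
          rw [(hder x (by linarith [hx.1]) (by linarith [hx.2])).deriv]
          have a1 := hDD x θ₀ (by linarith [hx.1]) hx.2.le h3.le
          have a2 := div_le_div_of_nonneg_left (hnum x) (DD_pos x).2 a1
          linarith
      rw [← hz]
      exact hm (Set.left_mem_Icc.mpr hle) (Set.right_mem_Icc.mpr hle) hle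
  have key' : 0 ≤ psi c θ₀ + (gg c θ - gg c θ₀) / DD c θ₀ - psi c θ := key
  linarith

theorem psi_small {δ : ℝ} (hδ : 0 < δ) : ∃ θ, 0 < θ ∧ θ < π ∧ psi c θ < δ := by
  set η : ℝ := min δ 1 with hη
  have hη0 : 0 < η := lt_min hδ one_pos
  have hη1 : η ≤ 1 := min_le_right _ _
  have hπ := Real.pi_gt_three
  have hT : 0 < Real.tan (π / 2 - η) :=
    Real.tan_pos_of_pos_of_lt_pi_div_two (by linarith) (by linarith)
  set T : ℝ := Real.tan (π / 2 - η) with hTdef
  have hden : 0 < 2 + 8 * T := by linarith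
  have hθ0 : 0 < 1 / (2 + 8 * T) := by positivity
  have hθ1 : 1 / (2 + 8 * T) ≤ 1 / 2 := by
    apply div_le_div_of_nonneg_left zero_le_one (by norm_num) (by linarith)
  have hθT : T * (1 / (2 + 8 * T)) ≤ 1 / 8 := by
    rw [mul_one_div, div_le_iff₀ hden]
    linarith
  set θ : ℝ := 1 / (2 + 8 * T) with hθdef
  have hθπ : θ < π := by linarith
  refine ⟨θ, hθ0, hθπ, ?_⟩
  have hs : 0 < Real.sin θ := Real.sin_pos_of_pos_of_lt_pi hθ0 hθπ
  have hs' : Real.sin θ < θ := Real.sin_lt hθ0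
  have hc : 1 - θ ^ 2 / 2 ≤ Real.cos θ := Real.one_sub_sq_div_two_le_cos
  have hc1 := h1c.out
  have hu : T < (Real.cos θ - c) / Real.sin θ := by
    rw [lt_div_iff₀ hs]
    have a1 : T * Real.sin θ ≤ T * θ := mul_le_mul_of_nonneg_left hs'.le hT.le
    nlinarith
  have h1 : π / 2 - η < arctan ((Real.cos θ - c) / Real.sin θ) := by
    have a1 := Real.arctan_strictMono hu
    rw [hTdef, Real.arctan_tan (by linarith) (by linarith)] at a1
    exact a1
  have h2 : η ≤ δ := min_le_left _ _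
  unfold psi
  linarith

theorem gg_surj {h : ℝ} (h0 : 0 < h) (h1 : h < π) : ∃ θ, 0 < θ ∧ θ < π ∧ gg c θ = h := by
  have hc : ContinuousOn (gg c) (Set.Icc 0 π) :=
    fun x _ => (ps_gg_hasDeriv x).continuousAt.continuousWithinAt
  have h2 := intermediate_value_Ioo Real.pi_pos.le hc
  have g0 : gg c 0 = 0 := by
    unfold gg
    rw [Real.sin_zero]
    ring
  have g1 : gg c π = π := by
    unfold gg
    rw [Real.sin_pi]
    ring
  rw [g0, g1] at h2
  obtain ⟨θ, hθ, he⟩ := h2 ⟨h0, h1⟩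
  exact ⟨θ, hθ.1, hθ.2, he⟩

end Pool.Agent.Helper38.LC3
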