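import Pool.Agent.Helper38.LC3.StarNum

/-!
# Project LC3: `StarP` for many edges, monotonicity, the bound for `H`
-/

namespace Pool.Agent.Helper38.LC3

open Finset Real Pool.Agent.Helper98.LC
open Pool.Agent.Helper38.LC2 (c1 be be_pos be_sq be_num)

private lemma c1_pos' : (0 : ℝ) < 1 - c1 := by unfold c1; norm_num

theorem starP_mono {c : ℝ} [h0c : Fact (0 < c)] [h1c : Fact (c < 11 / 20)] {k B : ℕ} {Y Y' W : ℝ}
    (hY : 0 ≤ Y) (hYY : Y ≤ Y') (hW : 0 < W) (h : StarP c k B Y' W) : StarP c k B Y W := by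
  obtain ⟨θ, h1, h2, h3⟩ := h
  refine ⟨θ, h1, h2, lt_of_le_of_lt ?_ h3⟩
  have hD := (DD_pos (c := c) θ).2
  have h4 : Y ^ 2 ≤ Y' ^ 2 := pow_le_pow_left₀ hY hYY 2
  have h5 : be * Y ^ 2 / (4 * W) / DD c θ ≤ be * Y' ^ 2 / (4 * W) / DD c θ := by
    apply div_le_div_of_nonneg_right _ hD.le
    apply div_le_div_of_nonneg_right _ (by positivity)
    exact mul_le_mul_of_nonneg_left h4 be_pos.le
  linarith

theorem star_big {k B : ℕ} (hB : 1 ≤ B) (hk : 1 ≤ k) {Y W E : ℝ} (hE : 32 / 100 ≤ E)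
    (hY : W = (1 - c1) * Y + E) (h0 : 0 ≤ Y) (h3 : W ≤ 3) : StarP cN k B Y W := by
  have hB0 : (1 : ℝ) ≤ B := by exact_mod_cast hB
  have hk0 : (1 : ℝ) ≤ k := by exact_mod_cast hk
  have hBpos : (0 : ℝ) < B := by linarith
  have hkpos : (0 : ℝ) < k := by linarith
  obtain ⟨θ, hθ0, hθπ, hθ⟩ := psi_small (c := cN) (δ := 1 / (100 * B)) (by positivity)
  refine ⟨θ, hθ0, hθπ, ?_⟩
  obtain ⟨hD1, hD0⟩ := DD_pos (c := cN) θ
  have hgg := gg_pos (c := cN) hθ0
  have hc1 : (1 : ℝ) - c1 = 0.99999 := by norm_num [c1]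
  rw [hc1] at hY
  have hWE : E ≤ W := by
    rw [hY]
    nlinarith
  have hW0 : 0 < W := by linarith
  have hbe : be ≤ 1.1547006 := be_num.2
  have hbe0 := be_pos
  -- the first term
  have t1 : (B : ℝ) * (psi cN θ - gg cN θ / DD cN θ) ≤ 1 / 100 := by
    have h1 : 0 ≤ gg cN θ / DD cN θ := (div_pos hgg hD0).le
    have h2 : (B : ℝ) * (psi cN θ - gg cN θ / DD cN θ) ≤ B * (1 / (100 * B)) := by
      refine mul_le_mul_of_nonneg_left ?_ hBpos.le
      linarith
    have h3 : (B : ℝ) * (1 / (100 * B)) = 1 / 100 := by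
      field_simp
    linarith
  -- the last term
  have t3 : (k : ℝ) * arctan (be * (3 - W) / k) ≤ 1.1547006 * (3 - W) := by
    have h1 : 0 ≤ be * (3 - W) / k := by
      refine div_nonneg (mul_nonneg hbe0.le (by linarith)) hkpos.le
    have h2 : arctan (be * (3 - W) / k) ≤ be * (3 - W) / k := by
      have h4 := arctan_tangent h1 (le_refl (0 : ℝ))
      rw [arctan_zero] at h4
      simpa using h4
    calc (k : ℝ) * arctan (be * (3 - W) / k) ≤ k * (be * (3 - W) / k) :=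
          mul_le_mul_of_nonneg_left h2 hkpos.le
      _ = be * (3 - W) := by field_simp
      _ ≤ 1.1547006 * (3 - W) := mul_le_mul_of_nonneg_right hbe (by linarith)
  -- the middle term
  have t2 : be * Y ^ 2 / (4 * W) / DD cN θ ≤ 1.2722 * ((W - E) * (3 - E) / 3) := by
    have hcT : (1 - cN) ^ 2 = (47639 / 100000) ^ 2 := by norm_num [cN]
    rw [hcT] at hD1
    have hinv : (DD cN θ)⁻¹ ≤ 4.4064 := by
      rw [inv_le_comm₀ hD0 (by norm_num)]
      refine le_trans ?_ hD1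
      norm_num
    have hinv0 : 0 < (DD cN θ)⁻¹ := inv_pos.2 hD0
    have hYa : Y ^ 2 ≤ 1.00003 * (W - E) ^ 2 := by
      have h1 : W - E = 0.99999 * Y := by linarith
      rw [h1, mul_pow]
      nlinarith [sq_nonneg Y]
    have hfrac : (W - E) ^ 2 / W ≤ (W - E) * (3 - E) / 3 := by
      rw [div_le_div_iff₀ hW0 (by norm_num)]
      have h1 : 0 ≤ W - E := by linarith
      have h2 : 3 * (W - E) ≤ (3 - E) * W := by nlinarith
      nlinarith [mul_le_mul_of_nonneg_left h2 h1]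
    have hfr0 : 0 ≤ (W - E) ^ 2 / W := by positivity
    calc be * Y ^ 2 / (4 * W) / DD cN θ = (be * (DD cN θ)⁻¹ / 4) * (Y ^ 2 / W) := by
          field_simp
      _ ≤ (1.1547006 * 4.4064 / 4) * (1.00003 * (W - E) ^ 2 / W) := by
          refine mul_le_mul ?_ ?_ (by positivity) (by norm_num)
          · have h1 : be * (DD cN θ)⁻¹ ≤ 1.1547006 * 4.4064 :=
              mul_le_mul hbe hinv hinv0.le (by norm_num)
            linarith
          · exact div_le_div_of_nonneg_right hYa hW0.le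
      _ = (1.1547006 * 4.4064 / 4 * 1.00003) * ((W - E) ^ 2 / W) := by ring
      _ ≤ 1.2722 * ((W - E) ^ 2 / W) := by
          refine mul_le_mul_of_nonneg_right ?_ hfr0
          norm_num
      _ ≤ 1.2722 * ((W - E) * (3 - E) / 3) :=
          mul_le_mul_of_nonneg_left hfrac (by norm_num)
  have hsum : 1.2722 * ((W - E) * (3 - E) / 3) + 1.1547006 * (3 - W) ≤ 1.1547006 * 2.68 := by
    have h1 : 0 ≤ W - E := by linarith
    have h2 : 1.2722 * (3 - E) / 3 ≤ 1.1547006 := by linarith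
    nlinarith [mul_le_mul_of_nonneg_left h2 h1]
  have hpi := Real.pi_gt_d2
  linarith

/-- `W = (1 - c1) Y + E`, `E ≥ -e`, `W ≥ w`: the condition on `H` -/
theorem hH_gen {Y W b e w : ℝ} (hb0 : 0 ≤ b) (hb : b ≤ 1.1547006) (hW : w ≤ W) (hw : 0 < w)
    (h3 : W ≤ 3) (h0 : 0 ≤ Y) (he : 0 ≤ e) (hY : (1 - c1) * Y ≤ W + e)
    (h1 : 1.1547006 * (w + e) ^ 2 ≤ 4 * (1 - c1) ^ 2 * w)
    (h2 : 1.1547006 * (3 + e) ^ 2 ≤ 12 * (1 - c1) ^ 2) :
    b * Y ^ 2 / (4 * W) ≤ 1 := by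
  have hW0 : 0 < W := lt_of_lt_of_le hw hW
  rw [div_le_one (by positivity)]
  have hc := c1_pos'
  have hs : ((1 - c1) * Y) ^ 2 ≤ (W + e) ^ 2 :=
    pow_le_pow_left₀ (mul_nonneg hc.le h0) hY 2
  have h4 : b * ((1 - c1) * Y) ^ 2 ≤ 1.1547006 * (W + e) ^ 2 :=
    mul_le_mul hb hs (by positivity) (by norm_num)
  have h5 : 1.1547006 * (W + e) ^ 2 ≤ 4 * (1 - c1) ^ 2 * W := by
    rcases eq_or_lt_of_le (hW.trans h3) with h | h
    · have : W = w := by linarith
      rw [this]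
      exact h1
    · have h6 := mul_le_mul_of_nonneg_left h1 (show (0 : ℝ) ≤ 3 - W by linarith)
      have h7 := mul_le_mul_of_nonneg_left h2 (show (0 : ℝ) ≤ W - w by linarith)
      have h8 : 0 ≤ 1.1547006 * ((3 - w) * ((W - w) * (3 - W))) := by
        have : 0 ≤ (3 - w) * ((W - w) * (3 - W)) :=
          mul_nonneg (by linarith) (mul_nonneg (by linarith) (by linarith))
        positivity
      have h9 : (3 - w) * (1.1547006 * (W + e) ^ 2) ≤ (3 - w) * (4 * (1 - c1) ^ 2 * W) := by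
        nlinarith
      exact le_of_mul_le_mul_left h9 (by linarith)
  have h9 : (1 - c1) ^ 2 * (b * Y ^ 2) ≤ (1 - c1) ^ 2 * (4 * W) := by nlinarith
  exact le_of_mul_le_mul_left h9 (by positivity)

end Pool.Agent.Helper38.LC3
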