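import Pool.Agent.Helper38.LC3.Psi


namespace Pool.Agent.Helper38.LC3

open Finset Real Pool.Agent.Helper98.LC
open Pool.Agent.Helper38.LC2 (ct FaceFacts2 be c1 A0_pos be_pos be_A0 be_sq fix_mult fix_V)

variable {c : ℝ} [h0c : Fact (0 < c)] [h1c : Fact (c < 11 / 20)]

/-- `DD c (2 arctan u)` -/
noncomputable def DU (c u : ℝ) : ℝ := 1 - 2 * c * ((1 - u ^ 2) / (1 + u ^ 2)) + c ^ 2

/-- the upper bound; `p`, `q`, `T` are bounds for `psi c (2 arctan u)`, `gg c (2 arctan u)`, `arctan t` -/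
noncomputable def Fst (c : ℝ) (k B : ℕ) (E u p q T t w : ℝ) : ℝ :=
  B * (p - q / DU c u) + 1.1547006 * (w - 2 * E + E ^ 2 / w) / (4 * (1 - c1) ^ 2 * DU c u) +
    k * (T - t / (1 + t ^ 2)) + 1.1547006 * (3 - w) / (1 + t ^ 2)

/-- the condition of `core` (with `k` inner and `B` outer edges) -/
def StarP (c : ℝ) (k B : ℕ) (Y W : ℝ) : Prop :=
  ∃ θ₀, 0 < θ₀ ∧ θ₀ < π ∧ (B : ℝ) * (psi c θ₀ - gg c θ₀ / DD c θ₀) + be * Y ^ 2 / (4 * W) / DD c θ₀ +
    (k : ℝ) * arctan (be * (3 - W) / k) < π

private theorem sg_cos (u : ℝ) : Real.cos (2 * arctan u) = (1 - u ^ 2) / (1 + u ^ 2) := by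
  rw [Real.cos_two_mul, Real.cos_sq_arctan]
  have : (0 : ℝ) < 1 + u ^ 2 := by positivity
  field_simp
  ring

private theorem sg_sin (u : ℝ) : Real.sin (2 * arctan u) = 2 * u / (1 + u ^ 2) := by
  rw [Real.sin_two_mul, Real.sin_arctan, Real.cos_arctan]
  have h1 : (0 : ℝ) < 1 + u ^ 2 := by positivity
  have h2 : √(1 + u ^ 2) * √(1 + u ^ 2) = 1 + u ^ 2 := Real.mul_self_sqrt h1.le
  have h3 : √(1 + u ^ 2) ≠ 0 := (Real.sqrt_pos.mpr h1).ne'
  calc 2 * (u / √(1 + u ^ 2)) * (1 / √(1 + u ^ 2)) =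
        2 * u / (√(1 + u ^ 2) * √(1 + u ^ 2)) := by field_simp
    _ = 2 * u / (1 + u ^ 2) := by rw [h2]

private theorem sg_be : be ≤ 1.1547006 := by
  have h1 := be_sq
  have h2 := be_pos
  by_contra h3
  push Not at h3
  have h4 : (1.1547006 : ℝ) ^ 2 < be ^ 2 := pow_lt_pow_left₀ h3 (by norm_num) (by norm_num)
  rw [h1] at h4
  norm_num at h4

private theorem sg_c1 : (0 : ℝ) < 1 - c1 := by
  unfold c1
  norm_num

private theorem sg_conv {E w0 w1 W : ℝ} (h0 : 0 ≤ w0) (h00 : 0 < w0 ∨ E = 0) (hw0 : w0 ≤ W)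
    (hw1 : W ≤ w1) :
    (w1 - w0) * (E ^ 2 / W) ≤ (w1 - W) * (E ^ 2 / w0) + (W - w0) * (E ^ 2 / w1) := by
  rcases h00 with h | h
  · have hW : 0 < W := by linarith
    have hw : 0 < w1 := by linarith
    have e : (w1 - W) * (E ^ 2 / w0) + (W - w0) * (E ^ 2 / w1) - (w1 - w0) * (E ^ 2 / W) =
        E ^ 2 * ((w1 - w0) * (W - w0) * (w1 - W)) / (W * w0 * w1) := by
      field_simp
      ring
    have h2 : 0 ≤ E ^ 2 * ((w1 - w0) * (W - w0) * (w1 - W)) / (W * w0 * w1) := by
      apply div_nonneg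
      · exact mul_nonneg (sq_nonneg _) (mul_nonneg (mul_nonneg (by linarith) (by linarith))
          (by linarith))
      · positivity
    linarith
  · rw [h]
    simp

private theorem sg_max {k B : ℕ} {E u t p q T w0 w1 W : ℝ} (hd : 0 < DU c u)
    (h0 : 0 ≤ w0) (h00 : 0 < w0 ∨ E = 0) (hw0 : w0 ≤ W) (hw1 : W ≤ w1)
    (hF0 : Fst c k B E u p q T t w0 < 3.141592)
    (hF1 : Fst c k B E u p q T t w1 < 3.141592) : Fst c k B E u p q T t W < 3.141592 := by
  have hf : ∀ w, Fst c k B E u p q T t w = (B * (p - q / DU c u) + k * (T - t / (1 + t ^ 2))) +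
      1.1547006 / (4 * (1 - c1) ^ 2 * DU c u) * (w - 2 * E + E ^ 2 / w) +
      1.1547006 / (1 + t ^ 2) * (3 - w) := by
    intro w
    unfold Fst
    ring
  have hA : 0 ≤ 1.1547006 / (4 * (1 - c1) ^ 2 * DU c u) := by
    have := sg_c1
    positivity
  have hc := mul_le_mul_of_nonneg_left (sg_conv h0 h00 hw0 hw1) hA
  rw [hf] at hF0 hF1 ⊢
  set A := 1.1547006 / (4 * (1 - c1) ^ 2 * DU c u) with hAdef
  set C := 1.1547006 / (1 + t ^ 2) with hCdef
  set D := (B * (p - q / DU c u) + k * (T - t / (1 + t ^ 2)) : ℝ) with hDdef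
  rcases eq_or_lt_of_le (hw0.trans hw1) with h | h
  · have h1 : W = w0 := by linarith
    rw [h1]
    exact hF0
  · have e : (w1 - W) * (D + A * (w0 - 2 * E + E ^ 2 / w0) + C * (3 - w0)) +
        (W - w0) * (D + A * (w1 - 2 * E + E ^ 2 / w1) + C * (3 - w1)) -
        (w1 - w0) * (D + A * (W - 2 * E + E ^ 2 / W) + C * (3 - W)) =
        A * ((w1 - W) * (E ^ 2 / w0) + (W - w0) * (E ^ 2 / w1)) -
          A * ((w1 - w0) * (E ^ 2 / W)) := by
      ring
    have h2 : 0 < w1 - w0 := by linarith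
    have h3 : (w1 - w0) * (D + A * (W - 2 * E + E ^ 2 / W) + C * (3 - W)) <
        (w1 - w0) * 3.141592 := by
      rcases eq_or_lt_of_le hw1 with h4 | h4
      · have h5 : 0 < W - w0 := by linarith
        have h6 := mul_lt_mul_of_pos_left hF1 h5
        have h7 : w1 - W = 0 := by linarith
        rw [h7] at e
        nlinarith
      · have h5 : 0 < w1 - W := by linarith
        have h6 := mul_lt_mul_of_pos_left hF0 h5
        have h7 := mul_le_mul_of_nonneg_left hF1.le (sub_nonneg.mpr hw0)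
        nlinarith
    exact lt_of_mul_lt_mul_left h3 h2.le

theorem psi_two {u : ℝ} (h0 : 0 < u) (h1 : u < 1) :
    psi c (2 * arctan u) = π / 2 - arctan ((1 - u ^ 2 - c * (1 + u ^ 2)) / (2 * u)) := by
  unfold psi
  rw [sg_cos, sg_sin]
  have h2 : (0 : ℝ) < 1 + u ^ 2 := by positivity
  congr 2
  field_simp

theorem gg_two {u : ℝ} (h0 : 0 < u) (h1 : u < 1) :
    gg c (2 * arctan u) = 2 * arctan u - c * (2 * u / (1 + u ^ 2)) := by
  unfold gg
  rw [sg_sin]

theorem DD_two {u : ℝ} (h0 : 0 < u) (h1 : u < 1) : DD c (2 * arctan u) = DU c u := by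
  unfold DD DU
  rw [sg_cos]

theorem arctan_tangent {x t : ℝ} (hx : 0 ≤ x) (ht : 0 ≤ t) :
    arctan x ≤ arctan t + (x - t) / (1 + t ^ 2) := by
  have hder : ∀ y : ℝ, HasDerivAt (fun y => arctan t + (y - t) / (1 + t ^ 2) - arctan y)
      (1 / (1 + t ^ 2) - 1 / (1 + y ^ 2)) y := by
    intro y
    exact ((((hasDerivAt_id y).sub_const t).div_const (1 + t ^ 2)).const_add (arctan t)).sub
      (Real.hasDerivAt_arctan y)
  have hz : (fun y => arctan t + (y - t) / (1 + t ^ 2) - arctan y) t = 0 := by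
    simp
  have key : 0 ≤ (fun y => arctan t + (y - t) / (1 + t ^ 2) - arctan y) x := by
    rcases le_total t x with hle | hle
    · have hm : MonotoneOn (fun y => arctan t + (y - t) / (1 + t ^ 2) - arctan y)
          (Set.Icc t x) := by
        refine monotoneOn_of_deriv_nonneg (convex_Icc t x) ?_ ?_ ?_
        · intro y _
          exact (hder y).continuousAt.continuousWithinAt
        · intro y _
          exact (hder y).differentiableAt.differentiableWithinAt
        · intro y hy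
          rw [interior_Icc] at hy
          rw [(hder y).deriv]
          have a1 : 1 + t ^ 2 ≤ 1 + y ^ 2 := by nlinarith [hy.1]
          have a2 := one_div_le_one_div_of_le (by positivity) a1
          linarith
      rw [← hz]
      exact hm (Set.left_mem_Icc.mpr hle) (Set.right_mem_Icc.mpr hle) hle
    · have hm : AntitoneOn (fun y => arctan t + (y - t) / (1 + t ^ 2) - arctan y)
          (Set.Icc x t) := by
        refine antitoneOn_of_deriv_nonpos (convex_Icc x t) ?_ ?_ ?_
        · intro y _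
          exact (hder y).continuousAt.continuousWithinAt
        · intro y _
          exact (hder y).differentiableAt.differentiableWithinAt
        · intro y hy
          rw [interior_Icc] at hy
          rw [(hder y).deriv]
          have a1 : 1 + y ^ 2 ≤ 1 + t ^ 2 := by nlinarith [hy.1, hy.2]
          have a2 := one_div_le_one_div_of_le (by positivity) a1
          linarith
      rw [← hz]
      exact hm (Set.left_mem_Icc.mpr hle) (Set.right_mem_Icc.mpr hle) hle
  have key' : 0 ≤ arctan t + (x - t) / (1 + t ^ 2) - arctan x := key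
  linarith

theorem star_piece {k B : ℕ} (hk : 1 ≤ k) {E u t p q T w0 w1 Y W : ℝ} (hu : 0 < u) (hu1 : u < 1)
    (ht : 0 ≤ t) (hp : psi c (2 * arctan u) ≤ p) (hq : q ≤ gg c (2 * arctan u)) (hT : arctan t ≤ T)
    (h0 : 0 ≤ w0) (h00 : 0 < w0 ∨ E = 0) (hw0 : w0 ≤ W) (hw1 : W ≤ w1) (h3 : w1 ≤ 3)
    (hY : W = (1 - c1) * Y + E) (hF0 : Fst c k B E u p q T t w0 < 3.141592)
    (hF1 : Fst c k B E u p q T t w1 < 3.141592) : StarP c k B Y W := by
  have hd : 0 < DU c u := by
    rw [← DD_two hu hu1]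
    exact (DD_pos _).2
  have hX := sg_c1
  have hbe := sg_be
  have hbe0 := be_pos
  have hW0 : 0 ≤ W := h0.trans hw0
  have hkpos : (0 : ℝ) < k := by exact_mod_cast hk
  have hau : 0 < arctan u := by
    rw [← Real.arctan_zero]
    exact Real.arctan_strictMono hu
  have haπ := Real.arctan_lt_pi_div_two u
  refine ⟨2 * arctan u, by linarith, by linarith, ?_⟩
  rw [DD_two hu hu1]
  have s1 : (B : ℝ) * (psi c (2 * arctan u) - gg c (2 * arctan u) / DU c u) ≤
      B * (p - q / DU c u) := by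
    apply mul_le_mul_of_nonneg_left _ (Nat.cast_nonneg B)
    have := div_le_div_of_nonneg_right hq hd.le
    linarith
  have s2 : be * Y ^ 2 / (4 * W) / DU c u ≤
      1.1547006 * (W - 2 * E + E ^ 2 / W) / (4 * (1 - c1) ^ 2 * DU c u) := by
    rcases eq_or_lt_of_le hW0 with h | h
    · have hw00 : w0 = 0 := by linarith
      have hE : E = 0 := by
        rcases h00 with h5 | h5
        · exact absurd hw00 h5.ne'
        · exact h5
      rw [← h, hE]
      simp
    · have hYE : Y = (W - E) / (1 - c1) := by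
        rw [eq_div_iff hX.ne']
        linarith
      have e1 : be * Y ^ 2 / (4 * W) / DU c u =
          be * (((W - E) ^ 2 / W) / (4 * (1 - c1) ^ 2 * DU c u)) := by
        rw [hYE]
        field_simp
      have e2 : W - 2 * E + E ^ 2 / W = (W - E) ^ 2 / W := by
        field_simp
        ring
      rw [e1, e2, mul_div_assoc]
      apply mul_le_mul_of_nonneg_right hbe
      positivity
  have s3 : (k : ℝ) * arctan (be * (3 - W) / k) ≤
      k * (T - t / (1 + t ^ 2)) + 1.1547006 * (3 - W) / (1 + t ^ 2) := by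
    have h3W : 0 ≤ 3 - W := by linarith
    have hx : 0 ≤ be * (3 - W) / k := by positivity
    have a1 := arctan_tangent hx ht
    have ht2 : (0 : ℝ) < 1 + t ^ 2 := by positivity
    calc (k : ℝ) * arctan (be * (3 - W) / k) ≤
          k * (arctan t + (be * (3 - W) / k - t) / (1 + t ^ 2)) :=
          mul_le_mul_of_nonneg_left a1 hkpos.le
      _ = k * (arctan t - t / (1 + t ^ 2)) + be * ((3 - W) / (1 + t ^ 2)) := by
          field_simp
          ring
      _ ≤ k * (T - t / (1 + t ^ 2)) + 1.1547006 * ((3 - W) / (1 + t ^ 2)) := by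
          apply add_le_add
          · apply mul_le_mul_of_nonneg_left _ hkpos.le
            linarith
          · apply mul_le_mul_of_nonneg_right hbe
            positivity
      _ = _ := by rw [mul_div_assoc]
  have s4 := sg_max (k := k) (B := B) hd h0 h00 hw0 hw1 hF0 hF1
  have s5 := Real.pi_gt_d6
  unfold Fst at s4
  linarith

end Pool.Agent.Helper38.LC3
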