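import Pool.Agent.Helper38.LC3.NumGen

/-!
# Project LC3: the condition `StarP` for the small numbers of edges, `c = cN = 0.52361`
(numbers found by a computer search; `k` inner and `B` outer edges)
-/

namespace Pool.Agent.Helper38.LC3

open Finset Real Pool.Agent.Helper98.LC
open Pool.Agent.Helper38.LC2 (c1)

theorem star_41 {Y W : ℝ} (hY : W = (1 - c1) * Y + 0.0064) (h0 : 0.0064 ≤ W) (h3 : W ≤ 3) :
    StarP cN 4 1 Y W := by
  exact star_piece (c := cN) (k := 4) (B := 1) (by norm_num) (E := 0.0064) (u := 0.2462) (t := 0.624) (p := 0.908415)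
    (q := 0.239707) (T := 0.55788) (w0 := 0.0064) (w1 := 3) (by norm_num) (by norm_num) (by norm_num)
    (psi_a (x := 0.779929) (by norm_num) (by norm_num) (by norm_num) (by norm_num) (by norm_num [cN]) (by norm_num))
    (gg_num (by norm_num) (by norm_num) (by norm_num [cN]))
    (arc_a (by norm_num) (by norm_num) (by norm_num)) (by norm_num) (Or.inl (by norm_num)) h0 h3 (by norm_num)
    hY (by norm_num [Fst, DU, cN, c1]) (by norm_num [Fst, DU, cN, c1])

theorem star_51 {Y W : ℝ} (hY : W = (1 - c1) * Y + 0.06365) (h0 : 0.06365 ≤ W) (h3 : W ≤ 3) :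
    StarP cN 5 1 Y W := by
  rcases le_total W 1.124 with hW | hW
  · exact star_piece (c := cN) (k := 5) (B := 1) (by norm_num) (E := 0.06365) (u := 0.1903) (t := 0.5222) (p := 0.73479)
      (q := 0.183781) (T := 0.48125) (w0 := 0.06365) (w1 := 1.124) (by norm_num) (by norm_num) (by norm_num)
      (psi_b (x := 1.10671) (by norm_num) (by norm_num) (by norm_num) (by norm_num [cN]) (by norm_num))
      (gg_num (by norm_num) (by norm_num) (by norm_num [cN]))
      (arc_a (by norm_num) (by norm_num) (by norm_num)) (by norm_num) (Or.inl (by norm_num)) h0 hW (by norm_num)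
      hY (by norm_num [Fst, DU, cN, c1]) (by norm_num [Fst, DU, cN, c1])
  · exact star_piece (c := cN) (k := 5) (B := 1) (by norm_num) (E := 0.06365) (u := 0.2943) (t := 0.4332) (p := 1.04136)
      (q := 0.288807) (T := 0.408797) (w0 := 1.124) (w1 := 3) (by norm_num) (by norm_num) (by norm_num)
      (psi_a (x := 0.585161) (by norm_num) (by norm_num) (by norm_num) (by norm_num) (by norm_num [cN]) (by norm_num))
      (gg_num (by norm_num) (by norm_num) (by norm_num [cN]))
      (arc_a (by norm_num) (by norm_num) (by norm_num)) (by norm_num) (Or.inl (by norm_num)) hW h3 (by norm_num)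
      hY (by norm_num [Fst, DU, cN, c1]) (by norm_num [Fst, DU, cN, c1])

theorem star_32 {Y W : ℝ} (hY : W = (1 - c1) * Y + 0.06365) (h0 : 0.06365 ≤ W) (h3 : W ≤ 3) :
    StarP cN 3 2 Y W := by
  rcases le_total W 1.617 with hW | hW
  · exact star_piece (c := cN) (k := 3) (B := 2) (by norm_num) (E := 0.06365) (u := 0.211) (t := 0.5628) (p := 0.801583)
      (q := 0.204354) (T := 0.512618) (w0 := 0.06365) (w1 := 1.617) (by norm_num) (by norm_num) (by norm_num)
      (psi_a (x := 0.968145) (by norm_num) (by norm_num) (by norm_num) (by norm_num) (by norm_num [cN]) (by norm_num))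
      (gg_num (by norm_num) (by norm_num) (by norm_num [cN]))
      (arc_a (by norm_num) (by norm_num) (by norm_num)) (by norm_num) (Or.inl (by norm_num)) h0 hW (by norm_num)
      hY (by norm_num [Fst, DU, cN, c1]) (by norm_num [Fst, DU, cN, c1])
  · exact star_piece (c := cN) (k := 3) (B := 2) (by norm_num) (E := 0.06365) (u := 0.222) (t := 0.5323) (p := 0.83587)
      (q := 0.215351) (T := 0.489153) (w0 := 1.617) (w1 := 3) (by norm_num) (by norm_num) (by norm_num)
      (psi_a (x := 0.903829) (by norm_num) (by norm_num) (by norm_num) (by norm_num) (by norm_num [cN]) (by norm_num))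
      (gg_num (by norm_num) (by norm_num) (by norm_num [cN]))
      (arc_a (by norm_num) (by norm_num) (by norm_num)) (by norm_num) (Or.inl (by norm_num)) hW h3 (by norm_num)
      hY (by norm_num [Fst, DU, cN, c1]) (by norm_num [Fst, DU, cN, c1])

theorem star_61 {Y W : ℝ} (hY : W = (1 - c1) * Y + 0.1344) (h0 : 0.1344 ≤ W) (h3 : W ≤ 3) :
    StarP cN 6 1 Y W := by
  exact star_piece (c := cN) (k := 6) (B := 1) (by norm_num) (E := 0.1344) (u := 0.1684) (t := 0.4383) (p := 0.660872)
    (q := 0.16218) (T := 0.413083) (w0 := 0.1344) (w1 := 3) (by norm_num) (by norm_num) (by norm_num)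
    (psi_b (x := 1.286171) (by norm_num) (by norm_num) (by norm_num) (by norm_num [cN]) (by norm_num))
    (gg_num (by norm_num) (by norm_num) (by norm_num [cN]))
    (arc_a (by norm_num) (by norm_num) (by norm_num)) (by norm_num) (Or.inl (by norm_num)) h0 h3 (by norm_num)
    hY (by norm_num [Fst, DU, cN, c1]) (by norm_num [Fst, DU, cN, c1])

theorem star_42 {Y W : ℝ} (hY : W = (1 - c1) * Y + 0.1274) (h0 : 0.1274 ≤ W) (h3 : W ≤ 3) :
    StarP cN 4 2 Y W := by
  rcases le_total W 2.691 with hW | hW
  · exact star_piece (c := cN) (k := 4) (B := 2) (by norm_num) (E := 0.1274) (u := 0.1774) (t := 0.4702) (p := 0.691654)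
      (q := 0.171038) (T := 0.439525) (w0 := 0.1274) (w1 := 2.691) (by norm_num) (by norm_num) (by norm_num)
      (psi_b (x := 1.207555) (by norm_num) (by norm_num) (by norm_num) (by norm_num [cN]) (by norm_num))
      (gg_num (by norm_num) (by norm_num) (by norm_num [cN]))
      (arc_a (by norm_num) (by norm_num) (by norm_num)) (by norm_num) (Or.inl (by norm_num)) h0 hW (by norm_num)
      hY (by norm_num [Fst, DU, cN, c1]) (by norm_num [Fst, DU, cN, c1])
  · exact star_piece (c := cN) (k := 4) (B := 2) (by norm_num) (E := 0.1274) (u := 0.3554) (t := 0.0892) (p := 1.190754)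
      (q := 0.35251) (T := 0.088965) (w0 := 2.691) (w1 := 3) (by norm_num) (by norm_num) (by norm_num)
      (psi_a (x := 0.399471) (by norm_num) (by norm_num) (by norm_num) (by norm_num) (by norm_num [cN]) (by norm_num))
      (gg_num (by norm_num) (by norm_num) (by norm_num [cN]))
      (arc_c (by norm_num) (by norm_num)) (by norm_num) (Or.inl (by norm_num)) hW h3 (by norm_num)
      hY (by norm_num [Fst, DU, cN, c1]) (by norm_num [Fst, DU, cN, c1])

theorem star_71 {Y W : ℝ} (hY : W = (1 - c1) * Y + 0.20515) (h0 : 0.20515 ≤ W) (h3 : W ≤ 3) :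
    StarP cN 7 1 Y W := by
  exact star_piece (c := cN) (k := 7) (B := 1) (by norm_num) (E := 0.20515) (u := 0.1386) (t := 0.3794) (p := 0.554972)
    (q := 0.133036) (T := 0.362625) (w0 := 0.20515) (w1 := 3) (by norm_num) (by norm_num) (by norm_num)
    (psi_b (x := 1.612992) (by norm_num) (by norm_num) (by norm_num) (by norm_num [cN]) (by norm_num))
    (gg_num (by norm_num) (by norm_num) (by norm_num [cN]))
    (arc_a (by norm_num) (by norm_num) (by norm_num)) (by norm_num) (Or.inl (by norm_num)) h0 h3 (by norm_num)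
    hY (by norm_num [Fst, DU, cN, c1]) (by norm_num [Fst, DU, cN, c1])

theorem star_52 {Y W : ℝ} (hY : W = (1 - c1) * Y + 0.19815) (h0 : 0.19815 ≤ W) (h3 : W ≤ 3) :
    StarP cN 5 2 Y W := by
  exact star_piece (c := cN) (k := 5) (B := 2) (by norm_num) (E := 0.19815) (u := 0.1476) (t := 0.4041) (p := 0.58759)
    (q := 0.141809) (T := 0.384037) (w0 := 0.19815) (w1 := 3) (by norm_num) (by norm_num) (by norm_num)
    (psi_b (x := 1.501344) (by norm_num) (by norm_num) (by norm_num) (by norm_num [cN]) (by norm_num))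
    (gg_num (by norm_num) (by norm_num) (by norm_num [cN]))
    (arc_a (by norm_num) (by norm_num) (by norm_num)) (by norm_num) (Or.inl (by norm_num)) h0 h3 (by norm_num)
    hY (by norm_num [Fst, DU, cN, c1]) (by norm_num [Fst, DU, cN, c1])

theorem star_33 {Y W : ℝ} (hY : W = (1 - c1) * Y + 0.19115) (h0 : 0.19115 ≤ W) (h3 : W ≤ 3) :
    StarP cN 3 3 Y W := by
  exact star_piece (c := cN) (k := 3) (B := 3) (by norm_num) (E := 0.19115) (u := 0.1578) (t := 0.4325) (p := 0.623897)
    (q := 0.151782) (T := 0.408207) (w0 := 0.19115) (w1 := 3) (by norm_num) (by norm_num) (by norm_num)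
    (psi_b (x := 1.389261) (by norm_num) (by norm_num) (by norm_num) (by norm_num [cN]) (by norm_num))
    (gg_num (by norm_num) (by norm_num) (by norm_num [cN]))
    (arc_a (by norm_num) (by norm_num) (by norm_num)) (by norm_num) (Or.inl (by norm_num)) h0 h3 (by norm_num)
    hY (by norm_num [Fst, DU, cN, c1]) (by norm_num [Fst, DU, cN, c1])

theorem star_81 {Y W : ℝ} (hY : W = (1 - c1) * Y + 0.2759) (h0 : 0.2759 ≤ W) (h3 : W ≤ 3) :
    StarP cN 8 1 Y W := by
  exact star_piece (c := cN) (k := 8) (B := 1) (by norm_num) (E := 0.2759) (u := 0.111) (t := 0.3347) (p := 0.451675)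
    (q := 0.106268) (T := 0.322988) (w0 := 0.2759) (w1 := 3) (by norm_num) (by norm_num) (by norm_num)
    (psi_b (x := 2.06134) (by norm_num) (by norm_num) (by norm_num) (by norm_num [cN]) (by norm_num))
    (gg_num (by norm_num) (by norm_num) (by norm_num [cN]))
    (arc_a (by norm_num) (by norm_num) (by norm_num)) (by norm_num) (Or.inl (by norm_num)) h0 h3 (by norm_num)
    hY (by norm_num [Fst, DU, cN, c1]) (by norm_num [Fst, DU, cN, c1])

theorem star_62 {Y W : ℝ} (hY : W = (1 - c1) * Y + 0.2689) (h0 : 0.2689 ≤ W) (h3 : W ≤ 3) :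
    StarP cN 6 2 Y W := by
  exact star_piece (c := cN) (k := 6) (B := 2) (by norm_num) (E := 0.2689) (u := 0.1199) (t := 0.3573) (p := 0.485506)
    (q := 0.114878) (T := 0.343168) (w0 := 0.2689) (w1 := 3) (by norm_num) (by norm_num) (by norm_num)
    (psi_b (x := 1.895273) (by norm_num) (by norm_num) (by norm_num) (by norm_num [cN]) (by norm_num))
    (gg_num (by norm_num) (by norm_num) (by norm_num [cN]))
    (arc_a (by norm_num) (by norm_num) (by norm_num)) (by norm_num) (Or.inl (by norm_num)) h0 h3 (by norm_num)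
    hY (by norm_num [Fst, DU, cN, c1]) (by norm_num [Fst, DU, cN, c1])

theorem star_43 {Y W : ℝ} (hY : W = (1 - c1) * Y + 0.2619) (h0 : 0.2619 ≤ W) (h3 : W ≤ 3) :
    StarP cN 4 3 Y W := by
  exact star_piece (c := cN) (k := 4) (B := 3) (by norm_num) (E := 0.2619) (u := 0.1295) (t := 0.3822) (p := 0.521448)
    (q := 0.124188) (T := 0.36507) (w0 := 0.2619) (w1 := 3) (by norm_num) (by norm_num) (by norm_num)
    (psi_b (x := 1.740689) (by norm_num) (by norm_num) (by norm_num) (by norm_num [cN]) (by norm_num))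
    (gg_num (by norm_num) (by norm_num) (by norm_num [cN]))
    (arc_a (by norm_num) (by norm_num) (by norm_num)) (by norm_num) (Or.inl (by norm_num)) h0 h3 (by norm_num)
    hY (by norm_num [Fst, DU, cN, c1]) (by norm_num [Fst, DU, cN, c1])

theorem star_31 {Y W : ℝ} (hY : W = (1 - c1) * Y + (-0.07835)) (h0 : 0.0216 ≤ W) (h3 : W ≤ 3) :
    StarP cN 3 1 Y W := by
  rcases le_total W 0.703 with hW | hW
  · exact star_piece (c := cN) (k := 3) (B := 1) (by norm_num) (E := -0.07835) (u := 0.1959) (t := 1.0215) (p := 0.753154)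
      (q := 0.189331) (T := 0.796034) (w0 := 0.0216) (w1 := 0.703) (by norm_num) (by norm_num) (by norm_num)
      (psi_b (x := 1.066663) (by norm_num) (by norm_num) (by norm_num) (by norm_num [cN]) (by norm_num))
      (gg_num (by norm_num) (by norm_num) (by norm_num [cN]))
      (arc_b (by norm_num) (by norm_num)) (by norm_num) (Or.inl (by norm_num)) h0 hW (by norm_num)
      hY (by norm_num [Fst, DU, cN, c1]) (by norm_num [Fst, DU, cN, c1])
  · exact star_piece (c := cN) (k := 3) (B := 1) (by norm_num) (E := -0.07835) (u := 0.3117) (t := 0.8091) (p := 1.085999)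
      (q := 0.306798) (T := 0.680266) (w0 := 0.703) (w1 := 3) (by norm_num) (by norm_num) (by norm_num)
      (psi_a (x := 0.526725) (by norm_num) (by norm_num) (by norm_num) (by norm_num) (by norm_num [cN]) (by norm_num))
      (gg_num (by norm_num) (by norm_num) (by norm_num [cN]))
      (arc_a (by norm_num) (by norm_num) (by norm_num)) (by norm_num) (Or.inl (by norm_num)) hW h3 (by norm_num)
      hY (by norm_num [Fst, DU, cN, c1]) (by norm_num [Fst, DU, cN, c1])

theorem star_21 {Y W : ℝ} (hY : W = (1 - c1) * Y + (-0.1496)) (h0 : 0.0404 ≤ W) (h3 : W ≤ 3) :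
    StarP cN 2 1 Y W := by
  rcases le_total W 2.244 with hW | hW
  · exact star_piece (c := cN) (k := 2) (B := 1) (by norm_num) (E := -0.1496) (u := 0.4024) (t := 1.325) (p := 1.292802)
      (q := 0.402471) (T := 0.924284) (w0 := 0.0404) (w1 := 2.244) (by norm_num) (by norm_num) (by norm_num)
      (psi_c (x := 0.285385) (by norm_num) (by norm_num) (by norm_num) (by norm_num [cN]) (by norm_num))
      (gg_num (by norm_num) (by norm_num) (by norm_num [cN]))
      (arc_b (by norm_num) (by norm_num)) (by norm_num) (Or.inl (by norm_num)) h0 hW (by norm_num)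
      hY (by norm_num [Fst, DU, cN, c1]) (by norm_num [Fst, DU, cN, c1])
  · exact star_piece (c := cN) (k := 2) (B := 1) (by norm_num) (E := -0.1496) (u := 0.7069) (t := 0.4365) (p := 1.769695)
      (q := 0.735883) (T := 0.411572) (w0 := 2.244) (w1 := 3) (by norm_num) (by norm_num) (by norm_num)
      (psi_d (x := 0.201563) (by norm_num) (by norm_num) (by norm_num) (by norm_num [cN]) (by norm_num))
      (gg_num (by norm_num) (by norm_num) (by norm_num [cN]))
      (arc_a (by norm_num) (by norm_num) (by norm_num)) (by norm_num) (Or.inl (by norm_num)) hW h3 (by norm_num)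
      hY (by norm_num [Fst, DU, cN, c1]) (by norm_num [Fst, DU, cN, c1])

theorem star_11 {Y W : ℝ} (hY : W = (1 - c1) * Y + (-0.22085)) (h0 : 0.0291 ≤ W) (h3 : W ≤ 3) :
    StarP cN 1 1 Y W := by
  exact star_piece (c := cN) (k := 1) (B := 1) (by norm_num) (E := -0.22085) (u := 0.6783) (t := 2.6531) (p := 1.734877)
    (q := 0.704821) (T := 1.210359) (w0 := 0.0291) (w1 := 3) (by norm_num) (by norm_num) (by norm_num)
    (psi_d (x := 0.165568) (by norm_num) (by norm_num) (by norm_num) (by norm_num [cN]) (by norm_num))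
    (gg_num (by norm_num) (by norm_num) (by norm_num [cN]))
    (arc_b (by norm_num) (by norm_num)) (by norm_num) (Or.inl (by norm_num)) h0 h3 (by norm_num)
    hY (by norm_num [Fst, DU, cN, c1]) (by norm_num [Fst, DU, cN, c1])

end Pool.Agent.Helper38.LC3
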