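import Pool.Agent.Helper38.LC3.Bdry

/-!
# Project LC3: the sharp inequality for the classes with two inner and two outer edges

The constant is exactly `π / 6` (equality for the cells of a strip: two straight walls, two outer arcs of `60` degrees).
-/

namespace Pool.Agent.Helper38.LC3

open Finset Real Pool.Agent.Helper98.LC
open Pool.Agent.Helper38.LC2 (ct FaceFacts2 be c1 A0_pos be_pos be_A0 be_sq fix_mult fix_V be_num A0_num perim
  edge_half face_two nonneg_in face_refl)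

variable {E : Type} [DecidableEq E] {F : Finset E} {a : ℝ} {l ch y : E → ℝ}

theorem star22 {c : ℝ} [h0c : Fact (0 < c)] [h1c : Fact (c < 11 / 20)] (hc : c < π / 6) {Y : ℝ}
    (hY0 : 0 ≤ Y) (hY3 : Y ≤ 3) : StarP c 2 2 Y Y := by
  have hc0 : 0 < c := h0c.out
  have hc1 : c < 11 / 20 := h1c.out
  have h3 : √3 ^ 2 = 3 := Real.sq_sqrt (by norm_num)
  have h3p : 1.7 < √3 := by
    rw [Real.lt_sqrt (by norm_num)]
    norm_num
  have hpi := Real.pi_pos
  have hcos := Real.cos_pi_div_six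
  have hsin := Real.sin_pi_div_six
  obtain ⟨t, ht⟩ : ∃ t, t = √3 - 2 * c := ⟨_, rfl⟩
  have ht0 : 0 ≤ t := by rw [ht]; linarith
  have hD : DD c (π / 6) = (1 + t ^ 2) / 4 := by
    unfold DD
    rw [hcos, ht]
    nlinarith
  have hp : psi c (π / 6) = π / 2 - arctan t := by
    unfold psi
    rw [hcos, hsin, ht]
    congr 2
    ring
  have hg : gg c (π / 6) = π / 6 - c / 2 := by
    unfold gg
    rw [hsin]
    ring
  refine ⟨π / 6, by positivity, by linarith, ?_⟩
  rw [hD, hp, hg]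
  have hbe : be = 2 / √3 := rfl
  have hb3 : 3 * be = 2 * √3 := by
    rw [hbe]
    field_simp
    nlinarith
  have h1 : be * Y ^ 2 / (4 * Y) = be * Y / 4 := by
    rcases hY0.eq_or_lt with h | h
    · rw [← h]
      simp
    · field_simp
  rw [h1]
  have hx : 0 ≤ be * (3 - Y) / (2 : ℕ) := by
    have := be_pos
    have : 0 ≤ 3 - Y := by linarith
    positivity
  have h2 := arctan_tangent hx ht0
  push_cast at h2 ⊢
  have h4 : 0 < 1 + t ^ 2 := by positivity
  have h5 : 2 * (π / 2 - arctan t - (π / 6 - c / 2) / ((1 + t ^ 2) / 4)) +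
      be * Y / 4 / ((1 + t ^ 2) / 4) +
      2 * (arctan t + (be * (3 - Y) / 2 - t) / (1 + t ^ 2)) =
      π + (8 * c - 4 * π / 3) / (1 + t ^ 2) := by
    have h6 : 2 * t = 3 * be - 4 * c := by rw [hb3, ht]; ring
    obtain ⟨q, hq⟩ : ∃ q, q = (1 + t ^ 2)⁻¹ := ⟨_, rfl⟩
    have e1 : ∀ x : ℝ, x / ((1 + t ^ 2) / 4) = 4 * x * q := by
      intro x
      rw [hq, div_div_eq_mul_div, div_eq_mul_inv]
      ring
    have e2 : ∀ x : ℝ, x / (1 + t ^ 2) = x * q := by
      intro x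
      rw [hq, div_eq_mul_inv]
    rw [e1, e1, e2, e2]
    linear_combination (-q) * h6
  have h7 : (8 * c - 4 * π / 3) / (1 + t ^ 2) < 0 := by
    apply div_neg_of_neg_of_pos _ h4
    linarith
  linarith

/-- the inequality with a constant `c < π / 6` -/
theorem bdry22_lt {c : ℝ} (hc0 : 0 < c) (hc : c < π / 6) (h : FaceFacts2 F a l ch y)
    (ha : 0 < a) (O : Finset E) (hO : O ⊆ F)
    (hO1 : O.card = 2) (hF : F.card = 4) (hin : ∀ e ∈ F \ O, l e ≤ 3 * min 1 a) :
    6 * min 1 a + 2 * c * ∑ e ∈ O, ch e ≤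
      ∑ e ∈ F, l e + ∑ e ∈ O, l e + 3 * ∑ e ∈ F \ O, y e := by
  have hpi := Real.pi_lt_d2
  haveI i0 : Fact (0 < c) := ⟨hc0⟩
  haveI i1 : Fact (c < 11 / 20) := ⟨by linarith⟩
  have hX : be * (A0 * ∑ e ∈ F \ O, y e) = 3 * ∑ e ∈ F \ O, y e := by
    rw [← mul_assoc, be_A0]
  have hm1 : min 1 a ≤ 1 := min_le_left _ _
  have hma : min 1 a ≤ a := min_le_right _ _
  have hin3 : ∀ e ∈ F \ O, l e ≤ 3 := fun e he => (hin e he).trans (by linarith)
  have hcard : (F \ O).card = 2 := by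
    rw [Finset.card_sdiff_of_subset hO]
    omega
  rw [← hX, ← Finset.sum_sdiff hO]
  have hYs : ∑ e ∈ O, (l e - c * ch e) = ∑ e ∈ O, l e - c * ∑ e ∈ O, ch e := by
    rw [Finset.sum_sub_distrib, Finset.mul_sum]
  have hY0 : 0 ≤ ∑ e ∈ O, (l e - c * ch e) := by
    refine Finset.sum_nonneg fun e he => ?_
    have h1 := h.ch_nonneg e (hO he)
    have h2 := h.ch_le e (hO he)
    nlinarith
  have hkey : 3 * min 1 a - ∑ e ∈ O, (l e - c * ch e) ≤
      (∑ e ∈ F \ O, l e + be * (A0 * ∑ e ∈ F \ O, y e)) / 2 := by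
    rcases le_or_gt (3 * min 1 a - ∑ e ∈ O, (l e - c * ch e)) 0 with hV | hV
    · exact hV.trans (nonneg_in h (F \ O) Finset.sdiff_subset hin3).2
    refine core (c := c) h O hO (by omega) hin3 hm1 hma hV hY0 (fun h1 => h1) ?_ ?_
    · rcases hY0.eq_or_lt with h1 | h1
      · rw [← h1]
        simp
      · rw [div_le_one (by positivity)]
        have h2 := be_num.2
        have h3 := be_pos
        have h4 : be * (∑ e ∈ O, (l e - c * ch e)) ≤ 4 := by
          nlinarith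
        nlinarith
    · have h1 := star22 (c := c) hc hY0 (by linarith)
      rw [hcard, hO1]
      exact h1
  rw [hYs] at hkey
  linarith

/-- The sharp inequality for two inner and two outer edges. -/
theorem bdry22 (h : FaceFacts2 F a l ch y) (ha : 0 < a) (O : Finset E) (hO : O ⊆ F)
    (hO1 : O.card = 2) (hF : F.card = 4) (hin : ∀ e ∈ F \ O, l e ≤ 3 * min 1 a) :
    6 * min 1 a + π / 3 * ∑ e ∈ O, ch e ≤
      ∑ e ∈ F, l e + ∑ e ∈ O, l e + 3 * ∑ e ∈ F \ O, y e := by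
  have hch0 : 0 ≤ ∑ e ∈ O, ch e := Finset.sum_nonneg fun e he => h.ch_nonneg e (hO he)
  by_contra hcon
  push Not at hcon
  have hpi := Real.pi_pos
  have hpi3 := Real.pi_gt_three
  obtain ⟨S, hS⟩ : ∃ S, S = ∑ e ∈ O, ch e := ⟨_, rfl⟩
  obtain ⟨R, hR⟩ : ∃ R, R = ∑ e ∈ F, l e + ∑ e ∈ O, l e + 3 * ∑ e ∈ F \ O, y e := ⟨_, rfl⟩
  rw [← hS, ← hR] at hcon
  rw [← hS] at hch0
  obtain ⟨d, hd⟩ : ∃ d, d = min (π / 12) ((6 * min 1 a + π / 3 * S - R) / (4 * (S + 1))) :=
    ⟨_, rfl⟩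
  have hd0 : 0 < d := by
    rw [hd]
    refine lt_min (by positivity) ?_
    apply div_pos (by linarith) (by linarith)
  have hd1 : d ≤ π / 12 := by rw [hd]; exact min_le_left _ _
  have hd2 : d ≤ (6 * min 1 a + π / 3 * S - R) / (4 * (S + 1)) := by
    rw [hd]
    exact min_le_right _ _
  rw [le_div_iff₀ (by linarith)] at hd2
  have h1 := bdry22_lt (c := π / 6 - d) (by linarith) (by linarith) h ha O hO hO1 hF hin
  rw [← hS, ← hR] at h1
  nlinarith

end Pool.Agent.Helper38.LC3
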